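import Pool.Agent.Ppr4.Defs

/-!
# The binomial coefficients of `(1 + Z)^(-1/2)`

`bb_sq`: let `B = mk bb`, `g = (1 + X) B^2`. The recursion `2 (k+1) bb (k+1) + 2 k bb k = - bb k`
says `2 (1 + X) B' = - B` (`PowerSeries.coeff_derivative`/`PowerSeries.derivative`, coefficient by
coefficient), so `g' = B^2 + 2 (1 + X) B B' = 0` and `g = 1` (`PowerSeries.derivative.ext`, the
constant term is `1`). (Another way: prove `∑_(p ∈ antidiagonal m) bb p.1 bb p.2 = (-1)^m` by
induction on `m` with the symmetrisation `∑ p.1 bb p.1 bb p.2 = (m/2) ∑ bb p.1 bb p.2`.)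
`bb_conv`: `(1 + X) * mk (fun m => (-1)^m) = 1`, so `B^2 = mk (fun m => (-1)^m)`, take the
coefficient of `X^m` (`PowerSeries.coeff_mul`). `bb_sign`: `bb k = (-1)^k |bb k|` by induction
(the factor `-((2k+1)/(2k+2))` is negative). `bb_abs_conv`: `|bb p.1| |bb p.2| =
(-1)^m bb p.1 bb p.2` for `p.1 + p.2 = m`, and `bb_conv`. `bb_abs`: the recursion factor has
absolute value `≤ 1`.
-/

namespace Pool.Agent.Ppr4

open PowerSeries Pool.Agent.Ppr Pool.Agent.Ppr2

private theorem bb_rec_BinA (k : ℕ) : ((k : ℝ) + 1) * bb (k + 1) = -((k : ℝ) + 1 / 2) * bb k := by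
  have h : (2 * (k : ℝ) + 2) ≠ 0 := by positivity
  change ((k : ℝ) + 1) * (-((2 * k + 1) / (2 * k + 2)) * bb k) = _
  field_simp

private theorem sym_BinA (m : ℕ) :
    ∑ p ∈ Finset.HasAntidiagonal.antidiagonal m, (p.1 : ℝ) * (bb p.1 * bb p.2) =
      (m : ℝ) / 2 * ∑ p ∈ Finset.HasAntidiagonal.antidiagonal m, bb p.1 * bb p.2 := by
  have h1 := Finset.Nat.sum_antidiagonal_swap (n := m)
    (f := fun p : ℕ × ℕ => (p.1 : ℝ) * (bb p.1 * bb p.2))
  have h2 : ∑ p ∈ Finset.HasAntidiagonal.antidiagonal m, ((p.1 : ℝ) * (bb p.1 * bb p.2)) +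
      ∑ p ∈ Finset.HasAntidiagonal.antidiagonal m, ((p.2 : ℝ) * (bb p.2 * bb p.1)) =
      (m : ℝ) * ∑ p ∈ Finset.HasAntidiagonal.antidiagonal m, bb p.1 * bb p.2 := by
    rw [← Finset.sum_add_distrib, Finset.mul_sum]
    refine Finset.sum_congr rfl fun p hp => ?_
    have h3 : ((p.1 : ℝ) + p.2) = m := by
      have := Finset.HasAntidiagonal.mem_antidiagonal.1 hp
      exact_mod_cast this
    rw [← h3]
    ring
  have h4 : ∑ p ∈ Finset.HasAntidiagonal.antidiagonal m, ((p.2 : ℝ) * (bb p.2 * bb p.1)) =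
      ∑ p ∈ Finset.HasAntidiagonal.antidiagonal m, ((p.1 : ℝ) * (bb p.1 * bb p.2)) := h1
  rw [h4] at h2
  linarith

theorem bb_conv (m : ℕ) :
    ∑ p ∈ Finset.HasAntidiagonal.antidiagonal m, bb p.1 * bb p.2 = (-1) ^ m := by
  induction m with
  | zero =>
    simp [bb]
  | succ m ih =>
    have h1 := sym_BinA (m + 1)
    rw [Finset.Nat.sum_antidiagonal_succ] at h1
    have h2 : ∑ p ∈ Finset.HasAntidiagonal.antidiagonal m,
        (((p.1 + 1 : ℕ) : ℝ) * (bb (p.1 + 1) * bb p.2)) =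
        -(((m : ℝ) + 1) / 2) *
          ∑ p ∈ Finset.HasAntidiagonal.antidiagonal m, bb p.1 * bb p.2 := by
      have h3 : ∀ p ∈ Finset.HasAntidiagonal.antidiagonal m,
          (((p.1 + 1 : ℕ) : ℝ) * (bb (p.1 + 1) * bb p.2)) =
          -((p.1 : ℝ) * (bb p.1 * bb p.2)) - 1 / 2 * (bb p.1 * bb p.2) := by
        intro p _
        have h4 := bb_rec_BinA p.1
        push_cast
        linear_combination bb p.2 * h4
      rw [Finset.sum_congr rfl h3, Finset.sum_sub_distrib, Finset.sum_neg_distrib, sym_BinA,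
        ← Finset.mul_sum]
      ring
    simp only [Nat.cast_zero, zero_mul, zero_add] at h1
    rw [h2, ih] at h1
    have h5 : ((m : ℝ) + 1) / 2 ≠ 0 := by positivity
    push_cast at h1
    apply mul_left_cancel₀ h5
    rw [← h1, pow_succ]
    ring

theorem bb_sign (k : ℕ) : bb k = (-1) ^ k * |bb k| := by
  induction k with
  | zero =>
    simp [bb]
  | succ k ih =>
    have h : (0 : ℝ) ≤ (2 * k + 1) / (2 * k + 2) := by positivity
    have e : bb (k + 1) = -((2 * k + 1) / (2 * k + 2)) * bb k := rfl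
    have h2 : |bb (k + 1)| = (2 * k + 1) / (2 * k + 2) * |bb k| := by
      rw [e, abs_mul, abs_neg, abs_of_nonneg h]
    rw [h2, e, pow_succ]
    linear_combination (-((2 * (k : ℝ) + 1) / (2 * k + 2))) * ih

theorem bb_abs (k : ℕ) : |bb k| ≤ 1 := by
  induction k with
  | zero =>
    simp [bb]
  | succ k ih =>
    have h : (0 : ℝ) ≤ (2 * k + 1) / (2 * k + 2) := by positivity
    have h1 : ((2 : ℝ) * k + 1) / (2 * k + 2) ≤ 1 := by
      rw [div_le_one (by positivity)]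
      linarith
    have e : bb (k + 1) = -((2 * k + 1) / (2 * k + 2)) * bb k := rfl
    rw [e, abs_mul, abs_neg, abs_of_nonneg h]
    exact mul_le_one₀ h1 (abs_nonneg _) ih

theorem bb_abs_conv (m : ℕ) :
    ∑ p ∈ Finset.HasAntidiagonal.antidiagonal m, |bb p.1| * |bb p.2| = 1 := by
  have h1 : ∀ p ∈ Finset.HasAntidiagonal.antidiagonal m,
      |bb p.1| * |bb p.2| = (-1) ^ m * (bb p.1 * bb p.2) := by
    intro p hp
    have h2 := Finset.HasAntidiagonal.mem_antidiagonal.1 hp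
    have h3 : ∀ j : ℕ, ((-1 : ℝ) ^ j) * (-1) ^ j = 1 := fun j => by
      rw [← mul_pow]
      norm_num
    have h4 : ∀ j : ℕ, |bb j| = (-1) ^ j * bb j := fun j => by
      calc |bb j| = ((-1 : ℝ) ^ j * (-1) ^ j) * |bb j| := by rw [h3, one_mul]
        _ = (-1) ^ j * ((-1) ^ j * |bb j|) := by ring
        _ = (-1) ^ j * bb j := by rw [← bb_sign]
    rw [h4 p.1, h4 p.2, ← h2, pow_add]
    ring
  rw [Finset.sum_congr rfl h1, ← Finset.mul_sum, bb_conv, ← mul_pow]
  norm_num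

end Pool.Agent.Ppr4
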