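import Pool.Agent.Ppr4.BinA

/-!
# The truncated series

`Th n = ∑_(k ≤ n) bb k X^k`. `Th_sq`: let `p = (1 + X) (Th n)^2 - 1`. The coefficient of `X^m` in
`(Th n)^2` is `c m = ∑_(p ∈ antidiagonal m) (Th n).coeff p.1 (Th n).coeff p.2`. For `m ≤ n` it is
`(-1)^m` (`bb_conv`), for every `m` its absolute value is `≤ ∑ |bb p.1| |bb p.2| = 1`
(`bb_abs_conv`). So the coefficient of `X^m` in `p` is `0` for `m ≤ n` (`c m + c (m-1)`, for
`m = 0` it is `1 - 1`), and its absolute value is `≤ 2` for every `m ≥ 1`. So `X^(n+1)` divides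
`p` (`Polynomial.X_pow_dvd_iff`), `p = X^(n+1) q`, the coefficients of `q` are those of `p`
(`Polynomial.coeff_X_pow_mul`), and `natDegree p ≤ 2 n + 1`, so `q.coeff k = 0` for `k > n`.
-/

namespace Pool.Agent.Ppr4

open Pool.Agent.Ppr Pool.Agent.Ppr2

/-- the truncation of the series of `(1 + Z)^(-1/2)` -/
noncomputable def Th (n : ℕ) : Polynomial ℝ :=
  ∑ k ∈ Finset.range (n + 1), Polynomial.C (bb k) * Polynomial.X ^ k

private theorem BinB_coeff (n j : ℕ) : (Th n).coeff j = if j ≤ n then bb j else 0 := by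
  unfold Th
  rw [Polynomial.finsetSum_coeff]
  simp only [Polynomial.coeff_C_mul_X_pow]
  rw [Finset.sum_ite_eq]
  simp only [Finset.mem_range, Nat.lt_succ_iff]

private theorem BinB_abs (n j : ℕ) : |(Th n).coeff j| ≤ |bb j| := by
  rw [BinB_coeff]
  split_ifs with h
  · exact le_rfl
  · rw [abs_zero]
    exact abs_nonneg _

private theorem BinB_low (n m : ℕ) (h : m ≤ n) : (Th n ^ 2).coeff m = (-1) ^ m := by
  rw [pow_two, Polynomial.coeff_mul, ← bb_conv m]
  refine Finset.sum_congr rfl fun p hp => ?_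
  rw [Finset.HasAntidiagonal.mem_antidiagonal] at hp
  rw [BinB_coeff, BinB_coeff, if_pos (by omega), if_pos (by omega)]

private theorem BinB_bd (n m : ℕ) : |(Th n ^ 2).coeff m| ≤ 1 := by
  rw [pow_two, Polynomial.coeff_mul, ← bb_abs_conv m]
  refine (Finset.abs_sum_le_sum_abs _ _).trans (Finset.sum_le_sum fun p _ => ?_)
  rw [abs_mul]
  exact mul_le_mul (BinB_abs n _) (BinB_abs n _) (abs_nonneg _) (abs_nonneg _)

private theorem BinB_high (n m : ℕ) (h : 2 * n < m) : (Th n ^ 2).coeff m = 0 := by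
  rw [pow_two, Polynomial.coeff_mul]
  refine Finset.sum_eq_zero fun p hp => ?_
  rw [Finset.HasAntidiagonal.mem_antidiagonal] at hp
  rw [BinB_coeff, BinB_coeff]
  by_cases h1 : p.1 ≤ n
  · rw [if_neg (show ¬ p.2 ≤ n by omega), mul_zero]
  · rw [if_neg h1, zero_mul]

private theorem BinB_succ (n m : ℕ) : ((1 + Polynomial.X) * Th n ^ 2).coeff (m + 1) =
    (Th n ^ 2).coeff (m + 1) + (Th n ^ 2).coeff m := by
  rw [add_mul, one_mul, Polynomial.coeff_add, Polynomial.coeff_X_mul]

theorem Th_sq (n : ℕ) : ∃ q : Polynomial ℝ,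
    (1 + Polynomial.X) * Th n ^ 2 = 1 + Polynomial.X ^ (n + 1) * q ∧
    (∀ k, n < k → q.coeff k = 0) ∧ ∀ k, |q.coeff k| ≤ 2 := by
  have hdvd : (Polynomial.X : Polynomial ℝ) ^ (n + 1) ∣ (1 + Polynomial.X) * Th n ^ 2 - 1 := by
    rw [Polynomial.X_pow_dvd_iff]
    intro d hd
    rw [Polynomial.coeff_sub]
    cases d with
    | zero =>
      rw [Polynomial.mul_coeff_zero, BinB_low n 0 (Nat.zero_le n), Polynomial.coeff_add,
        Polynomial.coeff_one_zero, Polynomial.coeff_X_zero]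
      norm_num
    | succ d =>
      rw [BinB_succ, BinB_low n (d + 1) (by omega), BinB_low n d (by omega),
        Polynomial.coeff_one, if_neg (by omega), pow_succ]
      ring
  obtain ⟨q, hq⟩ := hdvd
  have hc : ∀ k, q.coeff k = (Th n ^ 2).coeff (k + n + 1) + (Th n ^ 2).coeff (k + n) := by
    intro k
    have h1 : (Polynomial.X ^ (n + 1) * q).coeff (k + (n + 1)) = q.coeff k :=
      Polynomial.coeff_X_pow_mul q (n + 1) k
    rw [← h1, ← hq, Polynomial.coeff_sub, ← add_assoc k n 1, BinB_succ, Polynomial.coeff_one,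
      if_neg (by omega), sub_zero]
  refine ⟨q, ?_, fun k hk => ?_, fun k => ?_⟩
  · rw [← hq]
    ring
  · rw [hc, BinB_high n _ (by omega), BinB_high n _ (by omega), add_zero]
  · rw [hc]
    refine (abs_add_le _ _).trans ?_
    have h1 := BinB_bd n (k + n + 1)
    have h2 := BinB_bd n (k + n)
    linarith

end Pool.Agent.Ppr4
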