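import Pool.Agent.Ppr4.BinB
import Pool.Agent.Ppr.BndB
import Pool.Agent.Ppr2.NrmC

/-!
# The purified letter is close to the letter

`Sn_near`: `y = YR x`, `b = sg (x 0)`, `Z = y^2 - 1 = 4 X YR (sh x)` (`YR_sq`), so
`‖Z‖ ≤ 4 r (31/30) ≤ ρ = 5 r` in the norm `nrmr r M` (`nrmr_mul_le`, `nrmr_X_pow_le` with `j = 1`,
`nrmr_C_mul`, `nrmr_le_nrm`, `nrm_YR_le`). `Sn n 1 y = y Θ`, `Θ = aeval Z (Th n)`
(`one_pow`, `Polynomial.aeval` of the sum). With `q` of `Th_sq`: `(y Θ)^2 - 1 =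
(1 + Z) Θ^2 - 1 = Z^(n+1) Q`, `Q = aeval Z q = ∑_(k ≤ n) q.coeff k Z^k`
(`Polynomial.aeval_eq_sum_range'` with the bound `n + 1`), `‖Q‖ ≤ ∑_(k ≤ n) 2 ρ^k ≤ 4` (as
`ρ ≤ 1/2`), so `R = (y Θ)^2 - 1` has norm `≤ 4 ρ^(n+1)`. Let `x = y Θ - b`. Then
`‖x‖ ≤ ‖y - b‖ ‖Θ‖ + ‖Θ - 1‖ ≤ 1`: `‖y - b‖ ≤ nrm M (YR x - C b) ≤ 1/30` (`nrm_YR_sub` of
`Ppr/BndA`), `‖Θ - 1‖ ≤ ∑_(1 ≤ k ≤ n) ρ^k ≤ 2 ρ ≤ 1/4` (`bb_abs`, `bb 0 = 1`).
As `b^2 = 1`: `2 b x = R - x^2`, so `2 ‖x‖ ≤ ‖R‖ + ‖x‖^2 ≤ ‖R‖ + ‖x‖` (`nrmr_C_mul` with `2 b`)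
and `‖x‖ ≤ ‖R‖ ≤ 4 ρ^(n+1)`.
-/

namespace Pool.Agent.Ppr4

open PowerSeries Pool.Agent.Ppr Pool.Agent.Ppr2

private theorem BinC_geom {ρ : ℝ} (h0 : 0 ≤ ρ) (h1 : ρ ≤ 1 / 2) (m : ℕ) :
    ∑ k ∈ Finset.range m, ρ ^ k ≤ 2 := by
  have h2 := geom_sum_mul_neg ρ m
  have h3 : 0 ≤ ρ ^ m := by positivity
  have h4 : 0 ≤ ∑ k ∈ Finset.range m, ρ ^ k := Finset.sum_nonneg fun _ _ => by positivity
  nlinarith

private theorem BinC_Z {r : ℝ} (hr : 0 ≤ r) (hr2 : 5 * r ≤ 1 / 100) (M : ℕ) (x : ℕ → Bool) :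
    nrmr r M (YR x ^ 2 - 1) ≤ 5 * r := by
  have h1 : YR x ^ 2 - 1 = C (4 : ℝ) * (X ^ 1 * YR (sh x)) := by
    rw [YR_sq, pow_one]
    have : (C (4 : ℝ) : PowerSeries ℝ) = 4 := map_ofNat C 4
    rw [this]
    ring
  rw [h1, nrmr_C_mul, abs_of_nonneg (by norm_num : (0 : ℝ) ≤ 4)]
  have h2 := nrmr_mul_le hr M (X ^ 1) (YR (sh x))
  have h3 := nrmr_X_pow_le hr M 1
  have h4 := (nrmr_le_nrm hr (by linarith) M (YR (sh x))).trans (nrm_YR_le M (sh x))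
  have h5 : nrmr r M (X ^ 1) * nrmr r M (YR (sh x)) ≤ r ^ 1 * (31 / 30) :=
    mul_le_mul h3 h4 (nrmr_nonneg hr M _) (by positivity)
  rw [pow_one r] at h5
  linarith

theorem Sn_near {r : ℝ} (hr : 0 ≤ r) (hr2 : 5 * r ≤ 1 / 100) (n M : ℕ) (x : ℕ → Bool) :
    nrmr r M (Sn n 1 (YR x) - C (sg (x 0) : ℝ)) ≤ 4 * (5 * r) ^ (n + 1) := by
  obtain ⟨ρ, hρ⟩ : ∃ ρ : ℝ, ρ = 5 * r := ⟨_, rfl⟩
  have hρ0 : 0 ≤ ρ := by rw [hρ]; positivity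
  have hρ1 : ρ ≤ 1 / 100 := by rw [hρ]; exact hr2
  obtain ⟨y, hy⟩ : ∃ y : PowerSeries ℝ, y = YR x := ⟨_, rfl⟩
  obtain ⟨b, hb⟩ : ∃ b : ℝ, b = (sg (x 0) : ℝ) := ⟨_, rfl⟩
  have hbb : b = 1 ∨ b = -1 := by
    rw [hb]
    cases x 0 <;> simp [sg]
  have hb2 : b * b = 1 := by rcases hbb with h | h <;> rw [h] <;> norm_num
  have hbabs : |2 * b| = 2 := by rcases hbb with h | h <;> rw [h] <;> norm_num
  obtain ⟨Z, hZ⟩ : ∃ Z : PowerSeries ℝ, Z = y ^ 2 - 1 := ⟨_, rfl⟩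
  have hZn : nrmr r M Z ≤ ρ := by
    rw [hZ, hy, hρ]
    exact BinC_Z hr hr2 M x
  have hZp : ∀ k, nrmr r M (Z ^ k) ≤ ρ ^ k := fun k =>
    (nrmr_pow_le hr M k Z).trans (pow_le_pow_left₀ (nrmr_nonneg hr M Z) hZn k)
  obtain ⟨Θ, hΘ⟩ : ∃ Θ : PowerSeries ℝ, Θ = ∑ k ∈ Finset.range (n + 1), C (bb k) * Z ^ k :=
    ⟨_, rfl⟩
  have hΘa : Polynomial.aeval Z (Th n) = Θ := by
    rw [hΘ]
    unfold Th
    rw [map_sum]
    refine Finset.sum_congr rfl fun k _ => ?_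
    rw [map_mul, map_pow, Polynomial.aeval_X, Polynomial.aeval_C]
    rfl
  have hSn : Sn n 1 y = y * Θ := by
    unfold Sn
    rw [hΘ, ← hZ]
    congr 1
    refine Finset.sum_congr rfl fun k _ => ?_
    rw [one_pow, mul_one]
    rfl
  obtain ⟨q, hq, hq0, hq2⟩ := Th_sq n
  obtain ⟨Q, hQ⟩ : ∃ Q : PowerSeries ℝ, Q = Polynomial.aeval Z q := ⟨_, rfl⟩
  have hsq : (1 + Z) * Θ ^ 2 = 1 + Z ^ (n + 1) * Q := by
    have h := congrArg (Polynomial.aeval Z) hq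
    rw [map_mul, map_add, map_one, Polynomial.aeval_X, map_pow, hΘa, map_add, map_one, map_mul,
      map_pow, Polynomial.aeval_X, ← hQ] at h
    exact h
  have hQn : nrmr r M Q ≤ 4 := by
    have hdeg : q.natDegree < n + 1 := by
      rw [Nat.lt_succ_iff]
      exact Polynomial.natDegree_le_iff_coeff_eq_zero.2 hq0
    rw [hQ, Polynomial.aeval_eq_sum_range' hdeg]
    refine (nrmr_sum_le hr M _ _).trans ?_
    have h1 : ∀ k ∈ Finset.range (n + 1), nrmr r M (q.coeff k • Z ^ k) ≤ 2 * ρ ^ k := by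
      intro k _
      rw [PowerSeries.smul_eq_C_mul, nrmr_C_mul]
      exact mul_le_mul (hq2 k) (hZp k) (nrmr_nonneg hr M _) (by norm_num)
    refine (Finset.sum_le_sum h1).trans ?_
    rw [← Finset.mul_sum]
    have h2 := BinC_geom hρ0 (by linarith) (n + 1)
    linarith
  have hΘ1 : nrmr r M (Θ - 1) ≤ 2 * ρ := by
    have h1 : Θ - 1 = ∑ k ∈ Finset.range n, C (bb (k + 1)) * Z ^ (k + 1) := by
      rw [hΘ, Finset.sum_range_succ']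
      have : bb 0 = 1 := rfl
      rw [this, map_one, pow_zero]
      ring
    rw [h1]
    refine (nrmr_sum_le hr M _ _).trans ?_
    have h2 : ∀ k ∈ Finset.range n, nrmr r M (C (bb (k + 1)) * Z ^ (k + 1)) ≤ ρ * ρ ^ k := by
      intro k _
      rw [nrmr_C_mul]
      have h3 := mul_le_mul (bb_abs (k + 1)) (hZp (k + 1)) (nrmr_nonneg hr M _) (by norm_num)
      rw [one_mul, pow_succ' ρ k] at h3
      exact h3
    refine (Finset.sum_le_sum h2).trans ?_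
    rw [← Finset.mul_sum]
    have h4 := BinC_geom hρ0 (by linarith) n
    nlinarith
  have hΘn : nrmr r M Θ ≤ 1 + 2 * ρ := by
    have h1 : Θ = 1 + (Θ - 1) := by ring
    rw [h1]
    have h2 := nrmr_add_le hr M 1 (Θ - 1)
    have h3 := nrmr_one_le r M
    linarith
  have hyb : nrmr r M (y - C b) ≤ 1 / 30 := by
    rw [hy, hb]
    exact (nrmr_le_nrm hr (by linarith) M _).trans (nrm_YR_sub M x)
  obtain ⟨w, hw⟩ : ∃ w : PowerSeries ℝ, w = y * Θ - C b := ⟨_, rfl⟩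
  have hw1 : nrmr r M w ≤ 1 := by
    have h1 : w = (y - C b) * Θ + C b * (Θ - 1) := by rw [hw]; ring
    rw [h1]
    have h2 := nrmr_add_le hr M ((y - C b) * Θ) (C b * (Θ - 1))
    have h3 := nrmr_mul_le hr M (y - C b) Θ
    have h4 : nrmr r M (y - C b) * nrmr r M Θ ≤ 1 / 30 * (1 + 2 * ρ) :=
      mul_le_mul hyb hΘn (nrmr_nonneg hr M _) (by norm_num)
    have h5 : nrmr r M (C b * (Θ - 1)) = nrmr r M (Θ - 1) := by
      rw [nrmr_C_mul]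
      have : |b| = 1 := by rcases hbb with h | h <;> rw [h] <;> norm_num
      rw [this, one_mul]
    linarith
  have hR : nrmr r M (Z ^ (n + 1) * Q) ≤ 4 * ρ ^ (n + 1) := by
    refine (nrmr_mul_le hr M _ _).trans ?_
    have h1 := mul_le_mul (hZp (n + 1)) hQn (nrmr_nonneg hr M _) (by positivity)
    linarith
  have hCb : (C b : PowerSeries ℝ) * C b = 1 := by rw [← map_mul, hb2, map_one]
  have key : C (2 * b) * w = Z ^ (n + 1) * Q - w * w := by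
    have h1 : Z ^ (n + 1) * Q = (y * Θ) ^ 2 - 1 := by
      have h2 : y ^ 2 = 1 + Z := by rw [hZ]; ring
      rw [mul_pow, h2, hsq]
      ring
    have h3 : (C (2 * b) : PowerSeries ℝ) = 2 * C b := by
      have h4 : (C (2 : ℝ) : PowerSeries ℝ) = 2 := map_ofNat C 2
      rw [map_mul, h4]
    rw [h1, h3, hw]
    linear_combination (-2 : PowerSeries ℝ) * hCb + hCb
  have h6 := congrArg (nrmr r M) key
  rw [nrmr_C_mul, hbabs] at h6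
  have h7 := nrmr_sub_le hr M (Z ^ (n + 1) * Q) (w * w)
  have h8 := nrmr_mul_le hr M w w
  have h9 : nrmr r M w * nrmr r M w ≤ 1 * nrmr r M w :=
    mul_le_mul_of_nonneg_right hw1 (nrmr_nonneg hr M w)
  rw [← hy, ← hb, hSn, ← hw, ← hρ]
  linarith

end Pool.Agent.Ppr4
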