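import Pool.Agent.Ppr4.Defs

/-!
# The degree and the loss of order for `nn t = min ((K - t) / 4) ns`

`al_le`: let `T K = ∑_(t<K) 2^(t+1) (2 ((K - t)/4) + 1)`; `T (K+1) = 2 T K + 2 (2 ((K+1)/4) + 1)`
(`Finset.sum_range_succ'`, the summand `t = 0`, and `K + 1 - (t + 1) = K - t`). By induction
`15 T K + 60 (K/4) + 30 + 8 * 2^(K % 4) = 38 * 2^K` (write `K = 4 q + s`, `s < 4`, treat the four
cases; check of `K = 0`: `0 + 0 + 30 + 8 = 38`). So `15 T K + 38 ≤ 38 * 2^K`, and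
`al d K ≤ T K`, so `15 (al d K + 2^K) + 38 ≤ 53 * 2^K ≤ 60 * 2^K`, which gives
`al d K + 2^K ≤ 4 * 2^K - 1`. `dg_le`: `nn t ≤ ns`.
-/

namespace Pool.Agent.Ppr4

private theorem Cnt_sum (K : ℕ) :
    15 * (∑ t ∈ Finset.range K, 2 ^ (t + 1) * (2 * ((K - t) / 4) + 1)) + 60 * (K / 4) + 30 +
      8 * 2 ^ (K % 4) = 38 * 2 ^ K := by
  induction K with
  | zero => simp
  | succ K ih =>
    have h1 : ∑ t ∈ Finset.range (K + 1), 2 ^ (t + 1) * (2 * ((K + 1 - t) / 4) + 1) =
        2 * (∑ t ∈ Finset.range K, 2 ^ (t + 1) * (2 * ((K - t) / 4) + 1)) +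
          2 * (2 * ((K + 1) / 4) + 1) := by
      rw [Finset.sum_range_succ', Finset.mul_sum]
      congr 1
      refine Finset.sum_congr rfl fun t _ => ?_
      rw [show K + 1 - (t + 1) = K - t by omega, pow_succ 2 (t + 1)]
      ring
    rw [h1, pow_succ 2 K]
    have h2 : K % 4 < 4 := Nat.mod_lt _ (by norm_num)
    have h3 : K % 4 = 0 ∨ K % 4 = 1 ∨ K % 4 = 2 ∨ K % 4 = 3 := by omega
    rcases h3 with h3 | h3 | h3 | h3
    · have h4 : (K + 1) % 4 = 1 := by omega
      have h5 : (K + 1) / 4 = K / 4 := by omega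
      rw [h3] at ih
      rw [h4, h5]
      norm_num at ih ⊢
      omega
    · have h4 : (K + 1) % 4 = 2 := by omega
      have h5 : (K + 1) / 4 = K / 4 := by omega
      rw [h3] at ih
      rw [h4, h5]
      norm_num at ih ⊢
      omega
    · have h4 : (K + 1) % 4 = 3 := by omega
      have h5 : (K + 1) / 4 = K / 4 := by omega
      rw [h3] at ih
      rw [h4, h5]
      norm_num at ih ⊢
      omega
    · have h4 : (K + 1) % 4 = 0 := by omega
      have h5 : (K + 1) / 4 = K / 4 + 1 := by omega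
      rw [h3] at ih
      rw [h4, h5]
      norm_num at ih ⊢
      omega

theorem al_le (d : Dat) (K ns : ℕ) (hn : ∀ t, d.nn t = min ((K - t) / 4) ns) :
    al d K + 2 ^ K ≤ 2 ^ (K + 2) - 1 := by
  have h1 : al d K ≤ ∑ t ∈ Finset.range K, 2 ^ (t + 1) * (2 * ((K - t) / 4) + 1) := by
    unfold al
    refine Finset.sum_le_sum fun t _ => ?_
    have h2 : d.nn t ≤ (K - t) / 4 := by
      rw [hn]
      exact min_le_left _ _
    exact Nat.mul_le_mul (Nat.sub_le _ _) (by omega)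
  have h3 := Cnt_sum K
  have h4 : 1 ≤ 2 ^ (K % 4) := Nat.one_le_two_pow
  have h5 : 1 ≤ 2 ^ K := Nat.one_le_two_pow
  have h6 : 2 ^ (K + 2) = 4 * 2 ^ K := by ring
  rw [h6]
  omega

theorem dg_le (d : Dat) (K ns : ℕ) (hn : ∀ t, d.nn t = min ((K - t) / 4) ns) :
    dg d K ≤ 2 + K * (2 * ns + 1) := by
  unfold dg
  have h1 : ∑ t ∈ Finset.range K, (2 * d.nn t + 1) ≤ K * (2 * ns + 1) := by
    calc ∑ t ∈ Finset.range K, (2 * d.nn t + 1) ≤ ∑ _t ∈ Finset.range K, (2 * ns + 1) := by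
          refine Finset.sum_le_sum fun t _ => ?_
          have h2 : d.nn t ≤ ns := by
            rw [hn]
            exact min_le_right _ _
          omega
      _ = K * (2 * ns + 1) := by rw [Finset.sum_const, Finset.card_range, smul_eq_mul]
  omega

end Pool.Agent.Ppr4
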