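import Pool.Agent.Ppr4.Defs

/-!
# The relative error for `nn t = min ((K - t) / 4) ns`

`er_le`: `ρ^(min a ns + 1) ≤ ρ^(a+1) + ρ^(ns+1)`; `ρ^((K-t)/4 + 1) ≤ (1/100)^(K-t+1)` for `t < K`,
because `ρ ≤ (1/100)^4` and `4 ((K-t)/4 + 1) ≥ K - t + 1`; the sum over `t < K` of
`(1/100)^(K-t+1)` is `≤ (1/100)^2 * (100/99)` (`Finset.sum_range_reflect` and a geometric sum, or
an induction on `K` of `∑_(t<K) (1/100)^(K-t+1) ≤ 1/9900 - (1/100)^(K+1)/99` with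
`Finset.sum_range_succ'`); and `K ρ^(ns+1) ≤ 2^ns (1/100)^(4 (ns+1)) ≤ 1/10^8`. So
`er ≤ 10/10^8 + 16 (1/9900 + 1/10^8) ≤ 1/40`.
-/

namespace Pool.Agent.Ppr4

private theorem CntE_min {ρ : ℝ} (hρ : 0 ≤ ρ) (a b : ℕ) :
    ρ ^ (min a b + 1) ≤ ρ ^ (a + 1) + ρ ^ (b + 1) := by
  have h1 : 0 ≤ ρ ^ (a + 1) := pow_nonneg hρ _
  have h2 : 0 ≤ ρ ^ (b + 1) := pow_nonneg hρ _
  rcases min_choice a b with h | h <;> rw [h] <;> linarith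

private theorem CntE_geo (K : ℕ) :
    ∑ j ∈ Finset.range K, ((1 : ℝ) / 100) ^ (j + 2) ≤ 1 / 9900 - (1 / 100) ^ (K + 1) / 99 := by
  induction K with
  | zero => norm_num
  | succ K ih =>
    rw [Finset.sum_range_succ]
    have h : ((1 : ℝ) / 100) ^ (K + 1 + 1) = (1 / 100) ^ (K + 1) * (1 / 100) := pow_succ _ _
    rw [h]
    linarith

private theorem CntE_sum (K : ℕ) :
    ∑ t ∈ Finset.range K, ((1 : ℝ) / 100) ^ (K - t + 1) ≤ 1 / 9900 := by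
  have h1 : ∑ t ∈ Finset.range K, ((1 : ℝ) / 100) ^ (K - t + 1) =
      ∑ t ∈ Finset.range K, ((1 : ℝ) / 100) ^ ((K - 1 - t) + 2) := by
    refine Finset.sum_congr rfl fun t ht => ?_
    have := Finset.mem_range.1 ht
    congr 1
    omega
  rw [h1, Finset.sum_range_reflect (fun j => ((1 : ℝ) / 100) ^ (j + 2)) K]
  refine (CntE_geo K).trans ?_
  have : 0 ≤ ((1 : ℝ) / 100) ^ (K + 1) := by positivity
  linarith

private theorem CntE_term {ρ : ℝ} (hρ : 0 ≤ ρ) (hρ2 : ρ ≤ 1 / 10 ^ 8) (m : ℕ) :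
    ρ ^ (m / 4 + 1) ≤ (1 / 100) ^ (m + 1) := by
  calc ρ ^ (m / 4 + 1) ≤ ((1 / 100 : ℝ) ^ 4) ^ (m / 4 + 1) :=
        pow_le_pow_left₀ hρ (hρ2.trans (by norm_num)) _
    _ = (1 / 100 : ℝ) ^ (4 * (m / 4 + 1)) := by rw [pow_mul]
    _ ≤ (1 / 100) ^ (m + 1) :=
        pow_le_pow_of_le_one (by norm_num) (by norm_num) (by omega)

private theorem CntE_last {ρ : ℝ} (hρ : 0 ≤ ρ) (hρ2 : ρ ≤ 1 / 10 ^ 8) {K ns : ℕ}
    (hK : K ≤ 2 ^ ns) : (K : ℝ) * ρ ^ (ns + 1) ≤ 1 / 10 ^ 8 := by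
  have h1 : (K : ℝ) ≤ 2 ^ ns := by exact_mod_cast hK
  have h2 : (2 : ℝ) ^ ns * ρ ^ ns ≤ 1 := by
    rw [← mul_pow]
    exact pow_le_one₀ (by positivity) (by linarith)
  have h3 : 0 ≤ ρ ^ (ns + 1) := pow_nonneg hρ _
  calc (K : ℝ) * ρ ^ (ns + 1) ≤ 2 ^ ns * ρ ^ (ns + 1) := mul_le_mul_of_nonneg_right h1 h3
    _ = (2 ^ ns * ρ ^ ns) * ρ := by rw [pow_succ, mul_assoc]
    _ ≤ 1 * ρ := mul_le_mul_of_nonneg_right h2 hρ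
    _ ≤ 1 / 10 ^ 8 := by rw [one_mul]; exact hρ2

theorem er_le {ρ : ℝ} (hρ : 0 ≤ ρ) (hρ2 : ρ ≤ 1 / 10 ^ 8) (d : Dat) (K ns : ℕ)
    (hK : K ≤ 2 ^ ns) (hn : ∀ t, d.nn t = min ((K - t) / 4) ns) : er ρ d K ≤ 1 / 40 := by
  have h1 : ∑ t ∈ Finset.range K, 16 * ρ ^ (d.nn t + 1) ≤
      ∑ t ∈ Finset.range K, 16 * ((1 / 100 : ℝ) ^ (K - t + 1) + ρ ^ (ns + 1)) := by
    refine Finset.sum_le_sum fun t _ => ?_
    rw [hn]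
    have h2 := CntE_min hρ ((K - t) / 4) ns
    have h3 := CntE_term hρ hρ2 (K - t)
    linarith
  have h4 : ∑ t ∈ Finset.range K, 16 * ((1 / 100 : ℝ) ^ (K - t + 1) + ρ ^ (ns + 1)) =
      16 * (∑ t ∈ Finset.range K, (1 / 100 : ℝ) ^ (K - t + 1) + K * ρ ^ (ns + 1)) := by
    rw [← Finset.mul_sum, Finset.sum_add_distrib, Finset.sum_const, Finset.card_range,
      nsmul_eq_mul]
  have h5 := CntE_sum K
  have h6 := CntE_last hρ hρ2 hK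
  unfold er
  rw [h4] at h1
  have h7 : ∑ t ∈ Finset.range K, 16 * ρ ^ (d.nn t + 1) ≤ 16 * (1 / 9900 + 1 / 10 ^ 8) := by
    refine h1.trans ?_
    linarith
  have h8 : (10 : ℝ) * ρ ≤ 10 * (1 / 10 ^ 8) := by linarith
  calc _ ≤ 10 * (1 / 10 ^ 8) + 16 * (1 / 9900 + 1 / 10 ^ 8) := add_le_add h8 h7
    _ ≤ (1 / 40 : ℝ) := by norm_num

end Pool.Agent.Ppr4
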