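import Pool.Agent.Ppr2.Defs
import Pool.Agent.Ppr.Hed

/-!
# Fourth version: definitions

`bb k`: the coefficients of `(1 + Z)^(-1/2)`. `V : (ℕ → Bool) → R` gives the value of the variable
of every word, `II V = - V(+∞) V(-∞)` is a form of degree 2 with the value `1` at the two cusps.
`Sn n I x` is the purified letter, of degree `2 n + 1`. `fac V c0 n g v` is the factor with the
target letter `g` at the word `v`: near the cusp `w0` it is `0` or `2` up to a small error. `stp`:
one step, one letter is put in front of the word and the sum over this letter is taken. `Dat`: the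
data of a form. `itF`: the inner form `F0` after `i` steps. `GG`: the form.
`N0 ψ d z`: the value of the inner form, `0` or `4`. `del`: the value of the form at `w0`, divided
by `2 ^ K`. `V0 ψ`: the values of the variables at the cusp `w0`. `Eqv ψ v v'`: the words `v`, `v'`
have the same residual. `Same ψ K`: the lifts of `± u` have residuals independent of `u`.
-/

namespace Pool.Agent.Ppr4

open PowerSeries Pool.Agent.Ppr Pool.Agent.Ppr2

/-- the coefficients of `(1 + Z)^(-1/2)` -/
noncomputable def bb : ℕ → ℝ
  | 0 => 1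
  | k + 1 => -((2 * k + 1) / (2 * k + 2)) * bb k

/-- the word `+∞` -/
def tt : ℕ → Bool := fun _ => true

/-- the word `-∞` -/
def ff : ℕ → Bool := fun _ => false

/-- the data of a form -/
structure Dat where
  /-- the image letter of `+∞` -/
  c0 : Bool
  /-- the first prefix -/
  s1 : List Bool
  /-- the second prefix -/
  s2 : List Bool
  /-- the first target letter -/
  e1 : Bool
  /-- the second target letter -/
  e2 : Bool
  /-- the target letters -/
  g : ℕ → Bool
  /-- the orders of purification -/
  nn : ℕ → ℕ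

section generic

variable {R : Type} [CommRing R] [Algebra ℝ R]

/-- the homogeneous unit -/
def II (V : (ℕ → Bool) → R) : R := -(V tt * V ff)

/-- the purified letter -/
noncomputable def Sn (n : ℕ) (I x : R) : R :=
  x * ∑ k ∈ Finset.range (n + 1), algebraMap ℝ R (bb k) * ((x ^ 2 - I) ^ k * I ^ (n - k))

/-- the factor with the target letter `g` -/
noncomputable def fac (V : (ℕ → Bool) → R) (c0 : Bool) (n : ℕ) (g : Bool) (v : ℕ → Bool) : R :=
  (sg c0 : R) * Sn n (II V) (V tt) + (sg g : R) * Sn n (II V) (V v)

/-- one step -/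
def stp (f F : (ℕ → Bool) → R) (z : ℕ → Bool) : R :=
  f (cons true z) * F (cons true z) + f (cons false z) * F (cons false z)

/-- the inner form -/
noncomputable def F0 (V : (ℕ → Bool) → R) (d : Dat) (z : ℕ → Bool) : R :=
  fac V d.c0 0 d.e1 (app d.s1 z) * fac V d.c0 0 d.e2 (app d.s2 z)

/-- the inner form after `i` steps -/
noncomputable def itF (V : (ℕ → Bool) → R) (d : Dat) : ℕ → (ℕ → Bool) → R
  | 0 => F0 V d
  | i + 1 => stp (fac V d.c0 (d.nn i) (d.g i)) (itF V d i)

/-- the form -/
noncomputable def GG (V : (ℕ → Bool) → R) (d : Dat) (K : ℕ) (u u' : ℕ → Bool) : R :=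
  (itF V d K (cons true u) + itF V d K (cons false u)) -
    (itF V d K (cons true u') + itF V d K (cons false u'))

end generic

/-- the degree of the inner form after `i` steps -/
def dg (d : Dat) (i : ℕ) : ℕ := 2 + ∑ t ∈ Finset.range i, (2 * d.nn t + 1)

/-- the loss of order after `i` steps -/
def al (d : Dat) (i : ℕ) : ℕ := ∑ t ∈ Finset.range i, (2 ^ (t + 1) - 1) * (2 * d.nn t + 1)

/-- the relative error after `i` steps, `ρ = 5 r` -/
noncomputable def er (ρ : ℝ) (d : Dat) (i : ℕ) : ℝ :=
  10 * ρ + ∑ t ∈ Finset.range i, 16 * ρ ^ (d.nn t + 1)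

variable {m : ℕ} (ψ : (Fin m → Bool) → Bool)

/-- the value of the inner form -/
noncomputable def N0 (d : Dat) (z : ℕ → Bool) : ℝ :=
  (1 + (sg d.e1 : ℝ) * (sg (img ψ (app d.s1 z) 0) : ℝ)) *
    (1 + (sg d.e2 : ℝ) * (sg (img ψ (app d.s2 z) 0) : ℝ))

/-- the value of the form, divided by `2 ^ K` -/
noncomputable def del (d : Dat) (K : ℕ) (u u' : ℕ → Bool) : ℝ :=
  (N0 ψ d (Hed.build ψ d.g K (cons true u)) + N0 ψ d (Hed.build ψ d.g K (cons false u))) -
    (N0 ψ d (Hed.build ψ d.g K (cons true u')) + N0 ψ d (Hed.build ψ d.g K (cons false u')))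

/-- the values of the variables at the cusp `w0` -/
noncomputable def V0 (v : ℕ → Bool) : PowerSeries ℝ := YR fun k => img ψ v k

/-- the words `v`, `v'` have the same residual -/
def Eqv (v v' : ℕ → Bool) : Prop :=
  ∀ s : List Bool, s ≠ [] → img ψ (app s v) 0 = img ψ (app s v') 0

/-- for all target letters the two lifts of `± u` have residuals which do not depend on `u` -/
def Same (K : ℕ) : Prop :=
  ∀ (g u u' : ℕ → Bool),
    (Eqv ψ (Hed.build ψ g K (cons true u)) (Hed.build ψ g K (cons true u')) ∧
      Eqv ψ (Hed.build ψ g K (cons false u)) (Hed.build ψ g K (cons false u'))) ∨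
    (Eqv ψ (Hed.build ψ g K (cons true u)) (Hed.build ψ g K (cons false u')) ∧
      Eqv ψ (Hed.build ψ g K (cons false u)) (Hed.build ψ g K (cons true u')))

/-- the radius -/
noncomputable def r0 : ℝ := 1 / (5 * 10 ^ 8)

/-- `log log s * log log log s` -/
noncomputable def LL (s : ℕ) : ℝ :=
  Real.log (Real.log s) * Real.log (Real.log (Real.log s))

end Pool.Agent.Ppr4
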