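import Pool.Agent.Ppr4.Defs
import Pool.Agent.Ppr.BndB

/-!
# The homogeneous unit is `1` at the two cusps

`YR_tt_ff`: `a = YR tt` and `b = YR ff` satisfy `a^2 = 1 + 4 X a`, `b^2 = 1 + 4 X b` (`YR_sq`,
`sh tt = tt`), so `(a - b) (a + b - 4 X) = 0` and `a ≠ b` (the constant terms are `1`, `-1`:
`Y_const`), so `b = 4 X - a` and `a b = 4 X a - a^2 = -1`. `II_YR`, `II_V0`: the definition; in
the second one the words `img ψ tt`, `img ψ ff` are `tt`, `ff` or `ff`, `tt`.
-/

namespace Pool.Agent.Ppr4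

open PowerSeries Pool.Agent.Ppr Pool.Agent.Ppr2

variable {m : ℕ} {ψ : (Fin m → Bool) → Bool}

theorem YR_tt_ff : YR tt * YR ff = -1 := by
  have h1 : YR tt ^ 2 = 1 + 4 * X * YR tt := YR_sq tt
  have h2 : YR ff ^ 2 = 1 + 4 * X * YR ff := YR_sq ff
  have hc : ∀ v : ℕ → Bool, constantCoeff (YR v) = ((sg (v 0) : ℤ) : ℝ) := by
    intro v
    rw [YR, ← coeff_zero_eq_constantCoeff_apply, coeff_map, coeff_zero_eq_constantCoeff_apply,
      Y_const]
    rfl
  have hne : YR tt - YR ff ≠ 0 := by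
    intro h
    have h3 := congrArg (constantCoeff (R := ℝ)) h
    rw [map_sub, hc, hc, map_zero] at h3
    have h4 : ((sg (tt 0) : ℤ) : ℝ) = 1 := by simp [tt, sg]
    have h5 : ((sg (ff 0) : ℤ) : ℝ) = -1 := by simp [ff, sg]
    rw [h4, h5] at h3
    norm_num at h3
  have h4 : (YR tt - YR ff) * (YR tt + YR ff - 4 * X) = 0 := by
    linear_combination h1 - h2
  have h5 : YR tt + YR ff - 4 * X = 0 := (mul_eq_zero.1 h4).resolve_left hne
  linear_combination YR tt * h5 - h1

theorem II_YR : II YR = 1 := by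
  unfold II
  rw [YR_tt_ff, neg_neg]

/-- the image of `+∞` -/
theorem img_tt (k : ℕ) : img ψ tt k = xor true (ψ fun _ => true) := rfl

/-- the image of `-∞` -/
theorem img_ff (hpm : (ψ fun _ => true) = ψ fun _ => false) (k : ℕ) :
    img ψ ff k = !(img ψ tt 0) := by
  rw [img_tt]
  change xor false (ψ fun _ => false) = _
  rw [hpm]
  cases (ψ fun _ => false) <;> rfl

theorem II_V0 (hpm : (ψ fun _ => true) = ψ fun _ => false) : II (V0 ψ) = 1 := by
  have h1 : (fun k => img ψ tt k) = fun _ => img ψ tt 0 := by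
    funext k
    rw [img_tt, img_tt]
  have h2 : (fun k => img ψ ff k) = fun _ => !(img ψ tt 0) := by
    funext k
    rw [img_ff hpm]
  unfold II V0
  rw [h1, h2]
  cases img ψ tt 0
  · change -(YR ff * YR tt) = 1
    rw [mul_comm, YR_tt_ff, neg_neg]
  · change -(YR tt * YR ff) = 1
    rw [YR_tt_ff, neg_neg]

end Pool.Agent.Ppr4
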