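import Pool.Agent.Ppr4.Flip
import Pool.Agent.Ppr4.One

/-!
# The dichotomy, part A

Let `c = img ψ tt 0`, `cc = fun _ => c`; `pre ψ c tt = tt`, so
`build ψ cc n tt = tt` for every `n`.
(1) For every `n` there are `v, v'` with `build ψ cc n v` not equivalent to `build ψ cc n v'`:
`exists_D` with `K + n`, and `flip` with `h' i = if i < K then h i else c`; by `build_add`
`build ψ h' (K + n) v = build ψ h' K (build ψ cc n v)`, and `eqv_build`.
(2) Let `w n = build ψ cc n (cons false tt)`. For `n ≥ K` and every `v`: `build ψ cc n v` is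
equivalent to `tt` or to `w n`: `v = cons (v 0) (sh v)`, `n = a + K`,
`build ψ cc n = build ψ cc a ∘ build ψ cc K`, `Same ψ K` for `g = cc`, `u = sh v`, `u' = tt`, and
`eqv_build`; `cons true tt = tt`.
(3) For `n ≥ K` `w n` is not equivalent to `tt`, by (1) and (2).
(4) `w (K+1) = build ψ cc K (pre ψ c (cons false tt))`, so by (2), (3) it is equivalent to `w K`;
and `w (K+1) = pre ψ c (w K)` (`build_add` with `a = 1`). So with `w = w K`,
`x = xor c (key ψ w)`: `cons x w` is equivalent to `w` (`pre_cons`).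
(5) `(cons x)^[k] w` is equivalent to `w` for every `k` (`eqv_cons`); for `k = m` its first `m`
letters are `x`, so `w` is equivalent to `fun _ => x` (`eqv_win`). `x = true` contradicts (3).
`x = false`: `key ψ w = key ψ ff = ψ (fun _ => false) = ψ (fun _ => true)` (`eqv_key`), so
`false = xor c (ψ fun _ => true) = xor (xor true (ψ fun _ => true)) (ψ fun _ => true) = true`
(`img_tt`).
-/

namespace Pool.Agent.Ppr4

open Pool.Agent.Ppr Pool.Agent.Ppr2 Pool.Agent.Ppr.Hed

variable {m : ℕ} {ψ : (Fin m → Bool) → Bool}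

private theorem cons_true_Dich : cons true tt = tt := by
  funext k
  show (if k = 0 then true else tt (k - 1)) = true
  split_ifs <;> rfl

private theorem cons_sh_Dich (v : ℕ → Bool) : cons (v 0) (sh v) = v := by
  funext k
  show (if k = 0 then v 0 else v (k - 1 + 1)) = v k
  split_ifs with h
  · rw [h]
  · rw [show k - 1 + 1 = k by omega]

private theorem build_tt_Dich (n : ℕ) :
    build ψ (fun _ => img ψ tt 0) n tt = tt := by
  induction n with
  | zero => rfl
  | succ n ih =>
    show build ψ (fun _ => img ψ tt 0) n (pre ψ (img ψ tt 0) tt) = tt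
    have h : pre ψ (img ψ tt 0) tt = tt := by
      rw [pre_cons, img_tt]
      have h1 : key ψ tt = ψ fun _ => true := rfl
      rw [h1]
      have h2 : xor (xor true (ψ fun _ => true)) (ψ fun _ => true) = true := by
        cases ψ fun _ => true <;> rfl
      rw [h2, cons_true_Dich]
    rw [h]
    exact ih

private theorem iter_cons_Dich (x : Bool) (w : ℕ → Bool) (k : ℕ) :
    ∀ i, i < k → ((cons x)^[k] w) i = x := by
  induction k with
  | zero => intro i hi; omega
  | succ k ih =>
    intro i hi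
    rw [Function.iterate_succ_apply']
    show (if i = 0 then x else ((cons x)^[k] w) (i - 1)) = x
    split_ifs with h
    · rfl
    · exact ih (i - 1) (by omega)

private theorem exists_ne_Dich (hnc : ∃ x y, ψ x ≠ ψ y) {K : ℕ} (hS : Same ψ K) (c : Bool)
    (n : ℕ) : ∃ v v' : ℕ → Bool,
      ¬ Eqv ψ (build ψ (fun _ => c) n v) (build ψ (fun _ => c) n v') := by
  obtain ⟨h, v, v', hD⟩ := exists_D hnc (K + n)
  refine ⟨v, v', fun he => ?_⟩
  have h1 := flip hS (h := h) (h' := fun i => if i < K then h i else c)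
    (fun i hi => by rw [if_pos hi]) (K + n) v v' hD
  apply h1
  rw [build_add, build_add]
  have h2 : (fun i => (fun i => if i < K then h i else c) (K + i)) = fun _ => c := by
    funext i
    show (if K + i < K then h (K + i) else c) = c
    rw [if_neg (by omega)]
  rw [h2]
  exact eqv_build he _ K

private theorem two_cls_Dich {K : ℕ} (hS : Same ψ K) {n : ℕ} (hn : K ≤ n) (v : ℕ → Bool) :
    Eqv ψ (build ψ (fun _ => img ψ tt 0) n v) tt ∨
      Eqv ψ (build ψ (fun _ => img ψ tt 0) n v)
        (build ψ (fun _ => img ψ tt 0) n (cons false tt)) := by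
  obtain ⟨a, rfl⟩ : ∃ a, n = a + K := ⟨n - K, by omega⟩
  have hb : ∀ u : ℕ → Bool, build ψ (fun _ => img ψ tt 0) (a + K) u =
      build ψ (fun _ => img ψ tt 0) a (build ψ (fun _ => img ψ tt 0) K u) := fun u =>
    build_add _ a K u
  rw [hb, hb]
  have key1 : ∀ y : ℕ → Bool, Eqv ψ y (build ψ (fun _ => img ψ tt 0) K (cons true tt)) →
      Eqv ψ (build ψ (fun _ => img ψ tt 0) a y) tt := by
    intro y hy
    rw [cons_true_Dich, build_tt_Dich] at hy
    have h1 := eqv_build hy (fun _ => img ψ tt 0) a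
    rwa [build_tt_Dich] at h1
  have key2 : ∀ y : ℕ → Bool, Eqv ψ y (build ψ (fun _ => img ψ tt 0) K (cons false tt)) →
      Eqv ψ (build ψ (fun _ => img ψ tt 0) a y)
        (build ψ (fun _ => img ψ tt 0) a (build ψ (fun _ => img ψ tt 0) K (cons false tt))) :=
    fun y hy => eqv_build hy _ a
  have hv := cons_sh_Dich v
  rcases hS (fun _ => img ψ tt 0) (sh v) tt with ⟨h1, h2⟩ | ⟨h1, h2⟩
  · cases hv0 : v 0 with
    | true =>
      rw [hv0] at hv
      rw [hv] at h1
      exact Or.inl (key1 _ h1)
    | false =>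
      rw [hv0] at hv
      rw [hv] at h2
      exact Or.inr (key2 _ h2)
  · cases hv0 : v 0 with
    | true =>
      rw [hv0] at hv
      rw [hv] at h1
      exact Or.inr (key2 _ h1)
    | false =>
      rw [hv0] at hv
      rw [hv] at h2
      exact Or.inl (key1 _ h2)

theorem not_same (hnc : ∃ x y, ψ x ≠ ψ y) (hpm : (ψ fun _ => true) = ψ fun _ => false)
    (K : ℕ) : ¬ Same ψ K := by
  intro hS
  obtain ⟨w, hw⟩ : ∃ w : ℕ → ℕ → Bool,
      w = fun n => build ψ (fun _ => img ψ tt 0) n (cons false tt) := ⟨_, rfl⟩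
  have h2 : ∀ n, K ≤ n → ∀ v, Eqv ψ (build ψ (fun _ => img ψ tt 0) n v) tt ∨
      Eqv ψ (build ψ (fun _ => img ψ tt 0) n v) (w n) := by
    intro n hn v
    rw [hw]
    exact two_cls_Dich hS hn v
  have h3 : ∀ n, K ≤ n → ¬ Eqv ψ (w n) tt := by
    intro n hn he
    obtain ⟨v, v', hvv⟩ := exists_ne_Dich hnc hS (img ψ tt 0) n
    have hall : ∀ v, Eqv ψ (build ψ (fun _ => img ψ tt 0) n v) tt := by
      intro v
      rcases h2 n hn v with h | h
      · exact h
      · exact eqv_trans h he
    exact hvv (eqv_trans (hall v) (eqv_symm (hall v')))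
  have h4 : Eqv ψ (w (K + 1)) (w K) := by
    have e : w (K + 1) = build ψ (fun _ => img ψ tt 0) K (pre ψ (img ψ tt 0) (cons false tt)) := by
      rw [hw]
      rfl
    rcases h2 K le_rfl (pre ψ (img ψ tt 0) (cons false tt)) with h | h
    · rw [← e] at h
      exact absurd h (h3 (K + 1) (Nat.le_succ K))
    · rwa [← e] at h
  have h5 : w (K + 1) = cons (xor (img ψ tt 0) (key ψ (w K))) (w K) := by
    rw [← pre_cons]
    have e := build_add (ψ := ψ) (fun _ => img ψ tt 0) 1 K (cons false tt)
    rw [Nat.add_comm 1 K] at e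
    rw [hw]
    exact e
  obtain ⟨x, hx⟩ : ∃ x : Bool, x = xor (img ψ tt 0) (key ψ (w K)) := ⟨_, rfl⟩
  rw [← hx] at h5
  rw [h5] at h4
  have h6 : ∀ k, Eqv ψ ((cons x)^[k] (w K)) (w K) := by
    intro k
    induction k with
    | zero => exact eqv_refl _
    | succ k ih =>
      rw [Function.iterate_succ_apply']
      exact eqv_trans (eqv_cons ih x) h4
  have h7 : Eqv ψ (w K) (fun _ => x) :=
    eqv_trans (eqv_symm (h6 m)) (eqv_win fun k hk => iter_cons_Dich x (w K) m k hk)
  cases hxb : x with
  | true =>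
    rw [hxb] at h7
    exact h3 K le_rfl h7
  | false =>
    rw [hxb] at h7 hx
    have h8 : key ψ (w K) = ψ fun _ => false := eqv_key h7
    rw [h8, ← hpm, img_tt] at hx
    revert hx
    cases ψ fun _ => true <;> simp

end Pool.Agent.Ppr4
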