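import Pool.Agent.Ppr4.ValA

/-!
# The values at `w0`, part B: the steps

`N0_nonneg`, `N0_le`: the two factors are `0` or `2`. `F0_near`: `F = P Q`, `P = a + p`,
`Q = b + q`, `a, b ∈ {0, 2}`, `‖p‖, ‖q‖ ≤ δ = 8 ρ` (`fac_near` with `n = 0`), so the difference
`a q + p b + p q` has norm `≤ 4 δ + δ^2 ≤ 5 δ = 40 ρ = 4 * 2^0 * er ρ d 0`, `ρ = 5 r`.
`itF_near`, induction on `i` (`er ρ d i ≤ er ρ d (i+1) ≤ 1`, as the summands are `≥ 0`): let
`F = itF i`, `f = fac (nn i) (g i)`, `g = d.g i`, `x = xor g (key ψ z)`. Then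
`pre ψ g z = cons x z`, `build ψ d.g (i+1) z = build ψ d.g i (cons x z)`,
`img ψ (cons x z) 0 = g`, `img ψ (cons (!x) z) 0 = !g`, so `f (cons x z)` is close to `2` and
`f (cons (!x) z)` is close to `0`, the errors are `≤ δ = 8 ρ^(nn i + 1)`. By induction
`‖F (cons x z) - C N‖ ≤ 4 * 2^i * er`, `N = 2^i N0 (build ..) ≤ 4 * 2^i`, and
`‖F v‖ ≤ 8 * 2^i` for every `v`. `stp f F z - C (2 N) = (f (cons x z) - C 2) F (cons x z) +
C 2 (F (cons x z) - C N) + f (cons (!x) z) F (cons (!x) z)` (the two summands of `stp` in either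
order, `cases` on `x`), the norm is `≤ 2 δ * 8 * 2^i + 2 * 4 * 2^i * er ρ d i =
4 * 2^(i+1) * (er ρ d i + 16 ρ^(nn i + 1))`. `GG_near`: four terms.
-/

namespace Pool.Agent.Ppr4

open PowerSeries Pool.Agent.Ppr Pool.Agent.Ppr2

variable {m : ℕ} {ψ : (Fin m → Bool) → Bool}

private theorem valB_two (a b : Bool) :
    (1 + ((sg a : ℤ) : ℝ) * ((sg b : ℤ) : ℝ) = 0) ∨
      (1 + ((sg a : ℤ) : ℝ) * ((sg b : ℤ) : ℝ) = 2) := by
  cases a <;> cases b <;> simp [sg] <;> norm_num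

private theorem valB_nonneg (a b : Bool) : 0 ≤ 1 + ((sg a : ℤ) : ℝ) * ((sg b : ℤ) : ℝ) := by
  rcases valB_two a b with h | h <;> rw [h] <;> norm_num

private theorem valB_le (a b : Bool) : 1 + ((sg a : ℤ) : ℝ) * ((sg b : ℤ) : ℝ) ≤ 2 := by
  rcases valB_two a b with h | h <;> rw [h]
  norm_num

theorem N0_nonneg (d : Dat) (z : ℕ → Bool) : 0 ≤ N0 ψ d z :=
  mul_nonneg (valB_nonneg _ _) (valB_nonneg _ _)

theorem N0_le (d : Dat) (z : ℕ → Bool) : N0 ψ d z ≤ 4 := by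
  have h := mul_le_mul (valB_le d.e1 (img ψ (app d.s1 z) 0)) (valB_le d.e2 (img ψ (app d.s2 z) 0))
    (valB_nonneg _ _) (by norm_num)
  have h2 : (2 : ℝ) * 2 = 4 := by norm_num
  rw [h2] at h
  exact h

theorem F0_near (hpm : (ψ fun _ => true) = ψ fun _ => false) {r : ℝ} (hr : 0 ≤ r)
    (hr2 : 5 * r ≤ 1 / 100) (M : ℕ) (d : Dat) (hd : d.c0 = img ψ tt 0) (z : ℕ → Bool) :
    nrmr r M (F0 (V0 ψ) d z - C (N0 ψ d z)) ≤ 40 * (5 * r) := by
  obtain ⟨P, hP⟩ : ∃ P, P = fac (V0 ψ) d.c0 0 d.e1 (app d.s1 z) := ⟨_, rfl⟩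
  obtain ⟨Q, hQ⟩ : ∃ Q, Q = fac (V0 ψ) d.c0 0 d.e2 (app d.s2 z) := ⟨_, rfl⟩
  obtain ⟨a, ha⟩ : ∃ a : ℝ, a = 1 + (sg d.e1 : ℝ) * (sg (img ψ (app d.s1 z) 0) : ℝ) := ⟨_, rfl⟩
  obtain ⟨b, hb⟩ : ∃ b : ℝ, b = 1 + (sg d.e2 : ℝ) * (sg (img ψ (app d.s2 z) 0) : ℝ) := ⟨_, rfl⟩
  have h1 : nrmr r M (P - C a) ≤ 8 * (5 * r) ^ (0 + 1) := by
    rw [hP, ha, hd]
    exact fac_near hpm hr hr2 0 M d.e1 (app d.s1 z)
  have h2 : nrmr r M (Q - C b) ≤ 8 * (5 * r) ^ (0 + 1) := by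
    rw [hQ, hb, hd]
    exact fac_near hpm hr hr2 0 M d.e2 (app d.s2 z)
  rw [zero_add, pow_one] at h1 h2
  have ha0 : 0 ≤ a := by
    rw [ha]
    exact valB_nonneg _ _
  have hb0 : 0 ≤ b := by
    rw [hb]
    exact valB_nonneg _ _
  have ha2 : a ≤ 2 := by
    rw [ha]
    exact valB_le _ _
  have hb2 : b ≤ 2 := by
    rw [hb]
    exact valB_le _ _
  have h3 : F0 (V0 ψ) d z - C (N0 ψ d z) =
      C a * (Q - C b) + C b * (P - C a) + (P - C a) * (Q - C b) := by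
    have h4 : F0 (V0 ψ) d z = P * Q := by
      rw [hP, hQ]
      rfl
    have h5 : N0 ψ d z = a * b := by
      rw [ha, hb]
      rfl
    rw [h4, h5, map_mul]
    ring
  rw [h3]
  have hρ : 0 ≤ 5 * r := by positivity
  have n1 := nrmr_nonneg hr M (P - C a)
  have n2 := nrmr_nonneg hr M (Q - C b)
  have h6 : nrmr r M (C a * (Q - C b) + C b * (P - C a) + (P - C a) * (Q - C b)) ≤
      a * nrmr r M (Q - C b) + b * nrmr r M (P - C a) +
        nrmr r M (P - C a) * nrmr r M (Q - C b) := by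
    refine (nrmr_add_le hr M _ _).trans (add_le_add ?_ (nrmr_mul_le hr M _ _))
    refine (nrmr_add_le hr M _ _).trans ?_
    rw [nrmr_C_mul, nrmr_C_mul, abs_of_nonneg ha0, abs_of_nonneg hb0]
  refine h6.trans ?_
  have e1 : a * nrmr r M (Q - C b) ≤ 2 * (8 * (5 * r)) :=
    mul_le_mul ha2 h2 n2 (by norm_num)
  have e2 : b * nrmr r M (P - C a) ≤ 2 * (8 * (5 * r)) :=
    mul_le_mul hb2 h1 n1 (by norm_num)
  have e3 : nrmr r M (P - C a) * nrmr r M (Q - C b) ≤ 8 * (5 * r) * (8 * (5 * r)) :=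
    mul_le_mul h1 h2 n2 (by positivity)
  have e4 : 8 * (5 * r) * (8 * (5 * r)) ≤ 8 * (5 * r) * 1 :=
    mul_le_mul_of_nonneg_left (by linarith) (by positivity)
  linarith

theorem itF_near (hpm : (ψ fun _ => true) = ψ fun _ => false) {r : ℝ} (hr : 0 ≤ r)
    (hr2 : 5 * r ≤ 1 / 100) (M : ℕ) (d : Dat) (hd : d.c0 = img ψ tt 0) (i : ℕ)
    (he : er (5 * r) d i ≤ 1) (z : ℕ → Bool) :
    nrmr r M (itF (V0 ψ) d i z - C (2 ^ i * N0 ψ d (Hed.build ψ d.g i z))) ≤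
      4 * 2 ^ i * er (5 * r) d i := by
  have hρ : 0 ≤ 5 * r := by positivity
  induction i generalizing z with
  | zero =>
    have h1 := F0_near hpm hr hr2 M d hd z
    have h2 : (2 : ℝ) ^ 0 * N0 ψ d (Hed.build ψ d.g 0 z) = N0 ψ d z := by
      rw [pow_zero, one_mul]
      rfl
    have h3 : er (5 * r) d 0 = 10 * (5 * r) := by
      unfold er
      rw [Finset.sum_range_zero, add_zero]
    rw [h2, h3]
    have h4 : itF (V0 ψ) d 0 z = F0 (V0 ψ) d z := rfl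
    rw [h4]
    refine h1.trans (le_of_eq ?_)
    ring
  | succ i ih =>
    obtain ⟨δ, hδ⟩ : ∃ δ : ℝ, δ = (5 * r) ^ (d.nn i + 1) := ⟨_, rfl⟩
    have hδ0 : 0 ≤ δ := by
      rw [hδ]
      positivity
    have her : er (5 * r) d (i + 1) = er (5 * r) d i + 16 * δ := by
      unfold er
      rw [Finset.sum_range_succ, hδ]
      ring
    have he1 : er (5 * r) d i ≤ 1 := by
      rw [her] at he
      linarith
    have ih' := ih he1
    obtain ⟨F, hF⟩ : ∃ F : (ℕ → Bool) → PowerSeries ℝ, F = itF (V0 ψ) d i := ⟨_, rfl⟩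
    obtain ⟨f, hf⟩ : ∃ f : (ℕ → Bool) → PowerSeries ℝ,
      f = fac (V0 ψ) d.c0 (d.nn i) (d.g i) := ⟨_, rfl⟩
    rw [← hF] at ih'
    have hcons : ∀ b : Bool, Hed.pre ψ b z = cons (xor b (Hed.key ψ z)) z := by
      intro b
      funext k
      cases k with
      | zero => rfl
      | succ k => rfl
    obtain ⟨x, hx⟩ : ∃ x : Bool, x = xor (d.g i) (Hed.key ψ z) := ⟨_, rfl⟩
    have hx1 : Hed.pre ψ (d.g i) z = cons x z := by rw [hcons, hx]
    have hx2 : Hed.pre ψ (!(d.g i)) z = cons (!x) z := by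
      rw [hcons, hx]
      congr 1
      cases d.g i <;> cases Hed.key ψ z <;> rfl
    have hi1 : img ψ (cons x z) 0 = d.g i := by
      rw [← hx1, Hed.img_pre_zero]
    have hi2 : img ψ (cons (!x) z) 0 = !(d.g i) := by
      rw [← hx2, Hed.img_pre_zero]
    have hf1 : nrmr r M (f (cons x z) - C 2) ≤ 8 * δ := by
      have h1 := fac_near hpm hr hr2 (d.nn i) M (d.g i) (cons x z)
      have h2 : 1 + ((sg (d.g i) : ℤ) : ℝ) * ((sg (img ψ (cons x z) 0) : ℤ) : ℝ) = 2 := by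
        rw [hi1]
        cases d.g i <;> simp [sg] <;> norm_num
      rw [h2, ← hd, ← hδ] at h1
      rw [hf]
      exact h1
    have hf2 : nrmr r M (f (cons (!x) z)) ≤ 8 * δ := by
      have h1 := fac_near hpm hr hr2 (d.nn i) M (d.g i) (cons (!x) z)
      have h2 : 1 + ((sg (d.g i) : ℤ) : ℝ) * ((sg (img ψ (cons (!x) z) 0) : ℤ) : ℝ) = 0 := by
        rw [hi2]
        cases d.g i <;> simp [sg]
      rw [h2, ← hd, ← hδ, map_zero, sub_zero] at h1
      rw [hf]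
      exact h1
    have h2i : (0 : ℝ) < 2 ^ i := by positivity
    have hFn : ∀ v, nrmr r M (F v) ≤ 8 * 2 ^ i := by
      intro v
      have h1 := ih' v
      obtain ⟨N, hN⟩ : ∃ N : ℝ, N = N0 ψ d (Hed.build ψ d.g i v) := ⟨_, rfl⟩
      have hN0 : 0 ≤ N := by
        rw [hN]
        exact N0_nonneg _ _
      have hN4 : N ≤ 4 := by
        rw [hN]
        exact N0_le _ _
      rw [← hN] at h1
      have h2 : F v = (F v - C (2 ^ i * N)) + C (2 ^ i * N) := by ring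
      rw [h2]
      refine (nrmr_add_le hr M _ _).trans ?_
      have h3 := nrmr_C_le r M (2 ^ i * N)
      rw [abs_of_nonneg (by positivity)] at h3
      have h4 : 4 * 2 ^ i * er (5 * r) d i ≤ 4 * 2 ^ i * 1 :=
        mul_le_mul_of_nonneg_left he1 (by positivity)
      have h5 : 2 ^ i * N ≤ 2 ^ i * 4 := mul_le_mul_of_nonneg_left hN4 h2i.le
      linarith
    obtain ⟨N, hN⟩ : ∃ N : ℝ, N = N0 ψ d (Hed.build ψ d.g i (cons x z)) := ⟨_, rfl⟩
    have hb : N0 ψ d (Hed.build ψ d.g (i + 1) z) = N := by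
      rw [hN, ← hx1]
      rfl
    have hs : itF (V0 ψ) d (i + 1) z =
        f (cons x z) * F (cons x z) + f (cons (!x) z) * F (cons (!x) z) := by
      have h1 : itF (V0 ψ) d (i + 1) z = stp f F z := by
        rw [hf, hF]
        rfl
      rw [h1]
      unfold stp
      cases x with
      | true => rfl
      | false => exact add_comm _ _
    have h3 := ih' (cons x z)
    rw [← hN] at h3
    have h4 : itF (V0 ψ) d (i + 1) z - C (2 ^ (i + 1) * N0 ψ d (Hed.build ψ d.g (i + 1) z)) =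
        (f (cons x z) - C 2) * F (cons x z) + C 2 * (F (cons x z) - C (2 ^ i * N)) +
          f (cons (!x) z) * F (cons (!x) z) := by
      have h5 : (2 : ℝ) ^ (i + 1) * N = 2 * (2 ^ i * N) := by ring
      rw [hs, hb, h5, map_mul C 2 (2 ^ i * N)]
      ring
    rw [h4, her]
    refine (nrmr_add_le hr M _ _).trans ?_
    have h6 := nrmr_add_le hr M ((f (cons x z) - C 2) * F (cons x z))
      (C 2 * (F (cons x z) - C (2 ^ i * N)))
    rw [nrmr_C_mul] at h6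
    have h7 : nrmr r M ((f (cons x z) - C 2) * F (cons x z)) ≤ 8 * δ * (8 * 2 ^ i) :=
      (nrmr_mul_le hr M _ _).trans
        (mul_le_mul hf1 (hFn _) (nrmr_nonneg hr M _) (by positivity))
    have h8 : nrmr r M (f (cons (!x) z) * F (cons (!x) z)) ≤ 8 * δ * (8 * 2 ^ i) :=
      (nrmr_mul_le hr M _ _).trans
        (mul_le_mul hf2 (hFn _) (nrmr_nonneg hr M _) (by positivity))
    have h9 : |(2 : ℝ)| = 2 := abs_of_pos (by norm_num)
    rw [h9] at h6
    have h10 : 4 * 2 ^ (i + 1) * (er (5 * r) d i + 16 * δ) =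
        8 * δ * (8 * 2 ^ i) + 2 * (4 * 2 ^ i * er (5 * r) d i) + 8 * δ * (8 * 2 ^ i) := by
      ring
    rw [h10]
    linarith

theorem GG_near (hpm : (ψ fun _ => true) = ψ fun _ => false) {r : ℝ} (hr : 0 ≤ r)
    (hr2 : 5 * r ≤ 1 / 100) (M : ℕ) (d : Dat) (hd : d.c0 = img ψ tt 0) (K : ℕ)
    (he : er (5 * r) d K ≤ 1) (u u' : ℕ → Bool) :
    nrmr r M (GG (V0 ψ) d K u u' - C (2 ^ K * del ψ d K u u')) ≤
      16 * 2 ^ K * er (5 * r) d K := by
  have h1 := itF_near hpm hr hr2 M d hd K he (cons true u)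
  have h2 := itF_near hpm hr hr2 M d hd K he (cons false u)
  have h3 := itF_near hpm hr hr2 M d hd K he (cons true u')
  have h4 := itF_near hpm hr hr2 M d hd K he (cons false u')
  have h5 : GG (V0 ψ) d K u u' - C (2 ^ K * del ψ d K u u') =
      ((itF (V0 ψ) d K (cons true u) - C (2 ^ K * N0 ψ d (Hed.build ψ d.g K (cons true u)))) +
        (itF (V0 ψ) d K (cons false u) -
          C (2 ^ K * N0 ψ d (Hed.build ψ d.g K (cons false u))))) -
      ((itF (V0 ψ) d K (cons true u') - C (2 ^ K * N0 ψ d (Hed.build ψ d.g K (cons true u')))) +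
        (itF (V0 ψ) d K (cons false u') -
          C (2 ^ K * N0 ψ d (Hed.build ψ d.g K (cons false u'))))) := by
    unfold GG del
    simp only [mul_sub, mul_add, map_sub, map_add]
    ring
  rw [h5]
  refine (nrmr_sub_le hr M _ _).trans ?_
  have h6 := nrmr_add_le hr M
    (itF (V0 ψ) d K (cons true u) - C (2 ^ K * N0 ψ d (Hed.build ψ d.g K (cons true u))))
    (itF (V0 ψ) d K (cons false u) - C (2 ^ K * N0 ψ d (Hed.build ψ d.g K (cons false u))))
  have h7 := nrmr_add_le hr M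
    (itF (V0 ψ) d K (cons true u') - C (2 ^ K * N0 ψ d (Hed.build ψ d.g K (cons true u'))))
    (itF (V0 ψ) d K (cons false u') - C (2 ^ K * N0 ψ d (Hed.build ψ d.g K (cons false u'))))
  linarith

end Pool.Agent.Ppr4
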