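import Pool.Agent.Ppr4.Eqv
import Pool.Agent.Ppr4.ValB

/-!
# The dichotomy, part B

Take `g, u, u'` where `Same` fails and the four words `p, q` (lifts of `± u`) and
`p', q'` (lifts of `± u'`). If each of `p, q` is equivalent to `p'` or `q'` and each of `p', q'`
is equivalent to `p` or `q`, then one of the two alternatives of `Same` holds (transitivity). So
one of the four, `a`, is not equivalent to the two words `b, b'` of the other side. Choose `s1`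
with different image letters on `a, b`, `s2` with different image letters on `a, b'`,
`e1 = img ψ (app s1 a) 0`, `e2 = img ψ (app s2 a) 0`. Then `N0 a = 4`, `N0 b = N0 b' = 0` and
`N0 ≥ 0` for the fourth word (`N0_nonneg`), so `4 ≤ |del|`.
-/

namespace Pool.Agent.Ppr4

open Pool.Agent.Ppr Pool.Agent.Ppr2 Pool.Agent.Ppr.Hed

variable {m : ℕ} {ψ : (Fin m → Bool) → Bool}

private theorem sg_eq_DichB {x y : Bool} (h : x = y) : ((sg x : ℤ) : ℝ) * ((sg y : ℤ) : ℝ) = 1 := by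
  subst h
  cases x <;> simp [sg]

private theorem sg_ne_DichB {x y : Bool} (h : x ≠ y) :
    ((sg x : ℤ) : ℝ) * ((sg y : ℤ) : ℝ) = -1 := by
  cases x <;> cases y <;> simp_all [sg]

/-- a word `a` which is not equivalent to `b` and `b'` can be separated from both -/
private theorem sep_DichB {a b b' : ℕ → Bool} (h : ¬ Eqv ψ a b) (h' : ¬ Eqv ψ a b') (c0 : Bool)
    (g : ℕ → Bool) (nn : ℕ → ℕ) :
    ∃ d : Dat, d.c0 = c0 ∧ d.nn = nn ∧ d.g = g ∧ d.s1 ≠ [] ∧ d.s2 ≠ [] ∧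
      N0 ψ d a = 4 ∧ N0 ψ d b = 0 ∧ N0 ψ d b' = 0 := by
  unfold Eqv at h h'
  push Not at h h'
  obtain ⟨s1, hs1, h1⟩ := h
  obtain ⟨s2, hs2, h2⟩ := h'
  refine ⟨⟨c0, s1, s2, img ψ (app s1 a) 0, img ψ (app s2 a) 0, g, nn⟩, rfl, rfl, rfl, hs1, hs2,
    ?_, ?_, ?_⟩
  · unfold N0
    dsimp only
    rw [sg_eq_DichB rfl, sg_eq_DichB rfl]
    norm_num
  · unfold N0
    dsimp only
    rw [sg_ne_DichB h1]
    norm_num
  · unfold N0
    dsimp only
    rw [sg_ne_DichB h2]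
    norm_num

theorem exists_dat (K : ℕ) (h : ¬ Same ψ K) (c0 : Bool) (nn : ℕ → ℕ) :
    ∃ (d : Dat) (u u' : ℕ → Bool), d.c0 = c0 ∧ d.nn = nn ∧ d.s1 ≠ [] ∧ d.s2 ≠ [] ∧
      4 ≤ |del ψ d K u u'| := by
  unfold Same at h
  push Not at h
  obtain ⟨g, u, u', hA, hB⟩ := h
  set p := Hed.build ψ g K (cons true u) with hp
  set q := Hed.build ψ g K (cons false u) with hq
  set p' := Hed.build ψ g K (cons true u') with hp'
  set q' := Hed.build ψ g K (cons false u') with hq'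
  have key : (¬ Eqv ψ p p' ∧ ¬ Eqv ψ p q') ∨ (¬ Eqv ψ q p' ∧ ¬ Eqv ψ q q') ∨
      (¬ Eqv ψ p' p ∧ ¬ Eqv ψ p' q) ∨ (¬ Eqv ψ q' p ∧ ¬ Eqv ψ q' q) := by
    have s1 : Eqv ψ p' p → Eqv ψ p p' := eqv_symm
    have s2 : Eqv ψ p' q → Eqv ψ q p' := eqv_symm
    have s3 : Eqv ψ q' p → Eqv ψ p q' := eqv_symm
    have s4 : Eqv ψ q' q → Eqv ψ q q' := eqv_symm
    tauto
  rcases key with ⟨h1, h2⟩ | ⟨h1, h2⟩ | ⟨h1, h2⟩ | ⟨h1, h2⟩
  · obtain ⟨d, e1, e2, e3, e4, e5, k1, k2, k3⟩ := sep_DichB h1 h2 c0 g nn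
    refine ⟨d, u, u', e1, e2, e4, e5, ?_⟩
    have h0 : 0 ≤ N0 ψ d q := N0_nonneg d q
    unfold del
    rw [e3, ← hp, ← hq, ← hp', ← hq', k1, k2, k3]
    refine le_trans ?_ (le_abs_self _)
    linarith
  · obtain ⟨d, e1, e2, e3, e4, e5, k1, k2, k3⟩ := sep_DichB h1 h2 c0 g nn
    refine ⟨d, u, u', e1, e2, e4, e5, ?_⟩
    have h0 : 0 ≤ N0 ψ d p := N0_nonneg d p
    unfold del
    rw [e3, ← hp, ← hq, ← hp', ← hq', k1, k2, k3]
    refine le_trans ?_ (le_abs_self _)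
    linarith
  · obtain ⟨d, e1, e2, e3, e4, e5, k1, k2, k3⟩ := sep_DichB h1 h2 c0 g nn
    refine ⟨d, u, u', e1, e2, e4, e5, ?_⟩
    have h0 : 0 ≤ N0 ψ d q' := N0_nonneg d q'
    unfold del
    rw [e3, ← hp, ← hq, ← hp', ← hq', k1, k2, k3]
    refine le_trans ?_ (neg_le_abs _)
    linarith
  · obtain ⟨d, e1, e2, e3, e4, e5, k1, k2, k3⟩ := sep_DichB h1 h2 c0 g nn
    refine ⟨d, u, u', e1, e2, e4, e5, ?_⟩
    have h0 : 0 ≤ N0 ψ d p' := N0_nonneg d p'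
    unfold del
    rw [e3, ← hp, ← hq, ← hp', ← hq', k1, k2, k3]
    refine le_trans ?_ (neg_le_abs _)
    linarith

end Pool.Agent.Ppr4
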