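import Pool.Agent.Ppr4.Defs

/-!
# Residuals

`app_snoc`: induction on `s`. `eqv_cons`: `app s (cons c v) = app (s ++ [c]) v`. `eqv_key`: the
word `[true]` in front: `img ψ (cons true v) 0 = xor true (key ψ v)`. `pre_cons`: the definition
of `Hed.pre`, letter by letter. `eqv_pre`: `pre_cons`, `eqv_key`, `eqv_cons`. `eqv_build`:
induction on `l` for all `v`, `v'`. `eqv_win`: the first `m + 1` letters of `app s v` are those of
`s` (not empty) and `v 0, …, v (m - 1)` (a lemma of this kind is `eqv_win` in `Ppr3/StB`).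
`build_add`: induction on `b` for all `v`; `build_congr`: induction on `l`; `build_img`: induction
on `n`, `pre ψ (img ψ U n) (sh^[n+1] U) = sh^[n] U` because
`xor (img ψ U n) (key ψ (sh^[n+1] U)) = U n` (`(sh^[n] U) k = U (n + k)`).
-/

namespace Pool.Agent.Ppr4

open Pool.Agent.Ppr Pool.Agent.Ppr2 Pool.Agent.Ppr.Hed

variable {m : ℕ} {ψ : (Fin m → Bool) → Bool}

theorem eqv_refl (v : ℕ → Bool) : Eqv ψ v v := fun _ _ => rfl

theorem eqv_symm {v v' : ℕ → Bool} (h : Eqv ψ v v') : Eqv ψ v' v := fun s hs => (h s hs).symm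

theorem eqv_trans {v v' v'' : ℕ → Bool} (h : Eqv ψ v v') (h' : Eqv ψ v' v'') : Eqv ψ v v'' :=
  fun s hs => (h s hs).trans (h' s hs)

private theorem sh_iter_Eqv (U : ℕ → Bool) (n : ℕ) : ∀ k, (sh^[n] U) k = U (n + k) := by
  induction n generalizing U with
  | zero => intro k; simp
  | succ n ih =>
    intro k
    rw [Function.iterate_succ_apply, ih]
    show U (n + k + 1) = U (n + 1 + k)
    congr 1
    omega

private theorem app_congr_Eqv {z z' : ℕ → Bool} :
    ∀ (x : List Bool) (m : ℕ), (∀ k, k + x.length ≤ m → z k = z' k) →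
      ∀ k, k ≤ m → app x z k = app x z' k
  | [], m, h, k, hk => h k hk
  | d :: x, m, h, k, hk => by
    show cons d (app x z) k = cons d (app x z') k
    unfold cons
    by_cases hk0 : k = 0
    · rw [if_pos hk0, if_pos hk0]
    · rw [if_neg hk0, if_neg hk0]
      refine app_congr_Eqv x (m - 1) (fun j hj => h j ?_) (k - 1) (by omega)
      rw [List.length_cons]
      omega

private theorem img_congr_Eqv {m : ℕ} (ψ : (Fin m → Bool) → Bool) {v v' : ℕ → Bool}
    (h : ∀ k, k ≤ m → v k = v' k) : img ψ v 0 = img ψ v' 0 := by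
  unfold img
  rw [h 0 (Nat.zero_le m)]
  congr 2
  funext i
  exact h _ (by have := i.2; omega)

private theorem img_true_Eqv (ψ : (Fin m → Bool) → Bool) (v : ℕ → Bool) :
    img ψ (app [true] v) 0 = xor true (key ψ v) := by
  have h : (fun i : Fin m => app [true] v (0 + 1 + i.1)) = fun i => v i.1 := by
    funext i
    show (if 0 + 1 + i.1 = 0 then true else v (0 + 1 + i.1 - 1)) = v i.1
    rw [if_neg (by omega), show 0 + 1 + i.1 - 1 = i.1 by omega]
  unfold img key
  rw [h]
  rfl

theorem app_snoc (s : List Bool) (c : Bool) (v : ℕ → Bool) :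
    app (s ++ [c]) v = app s (cons c v) := by
  induction s with
  | nil => rfl
  | cons d x ih =>
    show cons d (app (x ++ [c]) v) = cons d (app x (cons c v))
    rw [ih]

theorem eqv_cons {v v' : ℕ → Bool} (h : Eqv ψ v v') (c : Bool) :
    Eqv ψ (cons c v) (cons c v') := by
  intro s hs
  have h1 := h (s ++ [c]) (by simp)
  rwa [app_snoc, app_snoc] at h1

theorem eqv_key {v v' : ℕ → Bool} (h : Eqv ψ v v') : key ψ v = key ψ v' := by
  have h1 := h [true] (by simp)
  rw [img_true_Eqv, img_true_Eqv] at h1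
  revert h1
  cases key ψ v <;> cases key ψ v' <;> simp

theorem pre_cons (b : Bool) (v : ℕ → Bool) : pre ψ b v = cons (xor b (key ψ v)) v := by
  funext k
  cases k with
  | zero => rfl
  | succ k => rfl

theorem eqv_pre {v v' : ℕ → Bool} (h : Eqv ψ v v') (b : Bool) :
    Eqv ψ (pre ψ b v) (pre ψ b v') := by
  rw [pre_cons, pre_cons, eqv_key h]
  exact eqv_cons h _

theorem eqv_build {v v' : ℕ → Bool} (h : Eqv ψ v v') (g : ℕ → Bool) (l : ℕ) :
    Eqv ψ (build ψ g l v) (build ψ g l v') := by
  induction l generalizing v v' with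
  | zero => exact h
  | succ l ih => exact ih (eqv_pre h (g l))

theorem eqv_win {v v' : ℕ → Bool} (h : ∀ k < m, v k = v' k) : Eqv ψ v v' := by
  intro s hs
  have hl : 0 < s.length := List.length_pos_iff.mpr hs
  exact img_congr_Eqv ψ fun k hk => app_congr_Eqv s m (fun j hj => h j (by omega)) k hk

theorem build_add (c : ℕ → Bool) (a b : ℕ) (v : ℕ → Bool) :
    build ψ c (a + b) v = build ψ c a (build ψ (fun i => c (a + i)) b v) := by
  induction b generalizing v with
  | zero => rfl
  | succ b ih => exact ih (pre ψ (c (a + b)) v)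

theorem build_congr {c c' : ℕ → Bool} {l : ℕ} (h : ∀ i < l, c i = c' i) (v : ℕ → Bool) :
    build ψ c l v = build ψ c' l v := by
  induction l generalizing v with
  | zero => rfl
  | succ l ih =>
    show build ψ c l (pre ψ (c l) v) = build ψ c' l (pre ψ (c' l) v)
    rw [h l (Nat.lt_succ_self l)]
    exact ih (fun i hi => h i (Nat.lt_succ_of_lt hi)) _

theorem build_img (U : ℕ → Bool) (n : ℕ) :
    build ψ (fun i => img ψ U i) n (sh^[n] U) = U := by
  induction n with
  | zero => rfl
  | succ n ih =>
    show build ψ (fun i => img ψ U i) n (pre ψ (img ψ U n) (sh^[n + 1] U)) = U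
    have h : pre ψ (img ψ U n) (sh^[n + 1] U) = sh^[n] U := by
      funext k
      cases k with
      | zero =>
        show xor (img ψ U n) (key ψ (sh^[n + 1] U)) = (sh^[n] U) 0
        have h1 : key ψ (sh^[n + 1] U) = ψ (fun i => U (n + 1 + i.1)) := by
          unfold key
          congr 1
          funext i
          exact sh_iter_Eqv U (n + 1) i.1
        rw [h1, sh_iter_Eqv, Nat.add_zero]
        unfold img
        cases U n <;> cases ψ (fun i => U (n + 1 + i.1)) <;> rfl
      | succ k =>
        show (sh^[n + 1] U) k = (sh^[n] U) (k + 1)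
        rw [sh_iter_Eqv, sh_iter_Eqv]
        congr 1
        omega
    rw [h]
    exact ih

end Pool.Agent.Ppr4
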