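import Pool.Agent.Ppr4.Eqv

/-!
# Changing inner letters does not change distinctness

`flip_one`: `n = a + K`, `build_add`: `build ψ h n w = build ψ h a (build ψ g K w)`,
`g i = h (a + i)`. Let `P x = build ψ g K (cons x v)`, `P' x = build ψ g K (cons x v')`,
`x = xor b (key ψ v)`, `x' = xor b (key ψ v')`: `pre ψ b v = cons x v`,
`pre ψ (!b) v = cons (!x) v` (`pre_cons`), the same for `v'`. `Same ψ K` for `g, v, v'`: either
`P c ~ P' c` for both letters `c` or `P c ~ P' (!c)` for both. Suppose that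
`build h a (P (!x)) ~ build h a (P' (!x'))`. Case `x' = x`: in the first case `P x ~ P' x`,
against `hD` (`eqv_build`); in the second case `build h a (P' x) ~ build h a (P (!x)) ~
build h a (P' (!x)) ~ build h a (P x)`, against `hD`. Case `x' = !x`: in the second case
`P x ~ P' (!x) = P' x'`, against `hD`; in the first case `build h a (P x) ~ build h a (P' x) ~
build h a (P (!x)) ~ build h a (P' (!x))`, against `hD`.
`flip`: induction on `n` for all `v`, `v'`. `n + 1 ≤ K`: `build_congr`. `n ≥ K`: the induction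
hypothesis for the words `pre ψ (h n) v`, `pre ψ (h n) v'` changes the letters `< n`; then
`flip_one` with `b = h n` if `h n ≠ h' n`.
`exists_D`: `collision` gives `u ≠ u'` with the same image; `u k ≠ u' k`; `U = sh^[k+1] u`,
`U' = sh^[k+1] u'`. The images agree at `k`, so `key ψ U ≠ key ψ U'`, so `U`, `U'` are not
equivalent (`eqv_key`). The images of `U` and `U'` agree (`img ψ (sh^[q] u) i = img ψ u (q + i)`),
`build_img` for both, with the words `sh^[n] U`, `sh^[n] U'`.
-/

namespace Pool.Agent.Ppr4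

open Pool.Agent.Ppr Pool.Agent.Ppr2 Pool.Agent.Ppr.Hed

variable {m : ℕ} {ψ : (Fin m → Bool) → Bool}

private theorem sh_iter_Flip (U : ℕ → Bool) (n : ℕ) : ∀ k, (sh^[n] U) k = U (n + k) := by
  induction n generalizing U with
  | zero => intro k; simp
  | succ n ih =>
    intro k
    rw [Function.iterate_succ_apply, ih]
    show U (n + k + 1) = U (n + 1 + k)
    congr 1
    omega

private theorem same_Flip {K : ℕ} (hS : Same ψ K) (g v v' : ℕ → Bool) :
    (∀ c, Eqv ψ (build ψ g K (cons c v)) (build ψ g K (cons c v'))) ∨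
      (∀ c, Eqv ψ (build ψ g K (cons c v)) (build ψ g K (cons (!c) v'))) := by
  rcases hS g v v' with ⟨h1, h2⟩ | ⟨h1, h2⟩
  · left
    intro c
    cases c
    · exact h2
    · exact h1
  · right
    intro c
    cases c
    · exact h2
    · exact h1

private theorem aux_Flip {R R' : Bool → ℕ → Bool} (x x' : Bool)
    (hR : (∀ c, Eqv ψ (R c) (R' c)) ∨ (∀ c, Eqv ψ (R c) (R' (!c))))
    (hD : ¬ Eqv ψ (R x) (R' x')) : ¬ Eqv ψ (R (!x)) (R' (!x')) := by
  intro hE
  apply hD
  rcases hR with hR | hR
  · cases x <;> cases x'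
    · exact hR _
    · exact eqv_trans (hR false) (eqv_trans (eqv_symm hE) (hR true))
    · exact eqv_trans (hR true) (eqv_trans (eqv_symm hE) (hR false))
    · exact hR _
  · cases x <;> cases x'
    · exact eqv_trans (hR false) (eqv_trans (eqv_symm hE) (hR true))
    · exact hR _
    · exact hR _
    · exact eqv_trans (hR true) (eqv_trans (eqv_symm hE) (hR false))

theorem flip_one {K n : ℕ} (hS : Same ψ K) (hn : K ≤ n) (h : ℕ → Bool) (b : Bool)
    (v v' : ℕ → Bool) (hD : ¬ Eqv ψ (build ψ h n (pre ψ b v)) (build ψ h n (pre ψ b v'))) :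
    ¬ Eqv ψ (build ψ h n (pre ψ (!b) v)) (build ψ h n (pre ψ (!b) v')) := by
  obtain ⟨a, rfl⟩ : ∃ a, n = a + K := ⟨n - K, by omega⟩
  have e : ∀ u : ℕ → Bool, pre ψ (!b) u = cons (!(xor b (key ψ u))) u := by
    intro u
    rw [pre_cons]
    congr 1
    cases b <;> cases key ψ u <;> rfl
  rw [pre_cons, pre_cons, build_add, build_add] at hD
  rw [e, e, build_add, build_add]
  exact aux_Flip (R := fun c => build ψ h a (build ψ (fun i => h (a + i)) K (cons c v)))
    (R' := fun c => build ψ h a (build ψ (fun i => h (a + i)) K (cons c v')))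
    (xor b (key ψ v)) (xor b (key ψ v'))
    ((same_Flip hS (fun i => h (a + i)) v v').imp (fun h1 c => eqv_build (h1 c) h a)
      (fun h1 c => eqv_build (h1 c) h a)) hD

theorem flip {K : ℕ} (hS : Same ψ K) {h h' : ℕ → Bool} (hh : ∀ i < K, h i = h' i) (n : ℕ)
    (v v' : ℕ → Bool) (hD : ¬ Eqv ψ (build ψ h n v) (build ψ h n v')) :
    ¬ Eqv ψ (build ψ h' n v) (build ψ h' n v') := by
  induction n generalizing v v' with
  | zero => exact hD
  | succ n ih =>
    have h1 : ¬ Eqv ψ (build ψ h' n (pre ψ (h n) v)) (build ψ h' n (pre ψ (h n) v')) :=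
      ih (pre ψ (h n) v) (pre ψ (h n) v') hD
    show ¬ Eqv ψ (build ψ h' n (pre ψ (h' n) v)) (build ψ h' n (pre ψ (h' n) v'))
    by_cases hn : h n = h' n
    · rw [← hn]
      exact h1
    · have hK : K ≤ n := by
        by_contra hc
        exact hn (hh n (by omega))
      have h2 : h' n = !(h n) := by
        revert hn
        cases h n <;> cases h' n <;> simp
      rw [h2]
      exact flip_one hS hK h' (h n) v v' h1

theorem exists_D (hnc : ∃ x y, ψ x ≠ ψ y) (n : ℕ) :
    ∃ h v v' : ℕ → Bool, ¬ Eqv ψ (build ψ h n v) (build ψ h n v') := by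
  obtain ⟨-, -, -, u, u', -, -, hne, himg⟩ := collision ψ hnc
  obtain ⟨k, hk⟩ := Function.ne_iff.mp hne
  have hi : ∀ (w : ℕ → Bool) (i : ℕ), img ψ (sh^[k + 1] w) i = img ψ w (k + 1 + i) := by
    intro w i
    unfold img
    rw [sh_iter_Flip]
    congr 2
    funext j
    rw [sh_iter_Flip]
    congr 1
    omega
  have hkey : ∀ w : ℕ → Bool, img ψ w k = xor (w k) (key ψ (sh^[k + 1] w)) := by
    intro w
    unfold img key
    congr 2
    funext j
    rw [sh_iter_Flip]
  have hU : ¬ Eqv ψ (sh^[k + 1] u) (sh^[k + 1] u') := by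
    intro hE
    have h1 := himg k
    rw [hkey, hkey, eqv_key hE] at h1
    apply hk
    revert h1
    cases u k <;> cases u' k <;> cases key ψ (sh^[k + 1] u') <;> simp
  have hf : (fun i => img ψ (sh^[k + 1] u') i) = fun i => img ψ (sh^[k + 1] u) i := by
    funext i
    rw [hi, hi, himg]
  refine ⟨fun i => img ψ (sh^[k + 1] u) i, sh^[n] (sh^[k + 1] u), sh^[n] (sh^[k + 1] u'), ?_⟩
  have h1 := build_img (ψ := ψ) (sh^[k + 1] u) n
  have h2 := build_img (ψ := ψ) (sh^[k + 1] u') n
  rw [hf] at h2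
  rw [h1, h2]
  exact hU

end Pool.Agent.Ppr4
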