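import Pool.Agent.Ppr4.Defs

/-!
# Algebra homomorphisms and congruences

`Sn_map`, `II_map`, `fac_map`, `itF_map` (induction on `i`), `GG_map`: `map_mul`, `map_add`,
`map_sub`, `map_sum`, `map_pow`, `map_intCast`, `AlgHom.commutes`. `GG_congr`: let `q` be
`Ideal.Quotient.mkₐ ℝ (Ideal.span {a})`; `q (V v) = q (V' v)` for every `v`
(`Ideal.Quotient.eq`, `Ideal.mem_span_singleton`), so `q (GG V ..) = GG (q ∘ V) .. =
GG (q ∘ V') .. = q (GG V' ..)` by `GG_map`, which is the statement.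
-/

namespace Pool.Agent.Ppr4

open PowerSeries Pool.Agent.Ppr Pool.Agent.Ppr2

variable {R S : Type} [CommRing R] [Algebra ℝ R] [CommRing S] [Algebra ℝ S]

theorem Sn_map (f : R →ₐ[ℝ] S) (n : ℕ) (I x : R) : f (Sn n I x) = Sn n (f I) (f x) := by
  unfold Sn
  rw [map_mul, map_sum]
  congr 1
  refine Finset.sum_congr rfl fun k _ => ?_
  rw [map_mul, map_mul, map_pow, map_pow, map_sub, map_pow, AlgHom.commutes]

theorem II_map (f : R →ₐ[ℝ] S) (V : (ℕ → Bool) → R) : f (II V) = II fun v => f (V v) := by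
  unfold II
  rw [map_neg, map_mul]

theorem fac_map (f : R →ₐ[ℝ] S) (V : (ℕ → Bool) → R) (c0 : Bool) (n : ℕ) (g : Bool)
    (v : ℕ → Bool) : f (fac V c0 n g v) = fac (fun v => f (V v)) c0 n g v := by
  unfold fac
  rw [map_add, map_mul, map_mul, map_intCast, map_intCast, Sn_map, Sn_map, II_map]

theorem itF_map (f : R →ₐ[ℝ] S) (V : (ℕ → Bool) → R) (d : Dat) (i : ℕ) (z : ℕ → Bool) :
    f (itF V d i z) = itF (fun v => f (V v)) d i z := by
  induction i generalizing z with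
  | zero =>
    change f (F0 V d z) = F0 (fun v => f (V v)) d z
    unfold F0
    rw [map_mul, fac_map, fac_map]
  | succ i ih =>
    change f (stp (fac V d.c0 (d.nn i) (d.g i)) (itF V d i) z) =
      stp (fac (fun v => f (V v)) d.c0 (d.nn i) (d.g i)) (itF (fun v => f (V v)) d i) z
    unfold stp
    rw [map_add, map_mul, map_mul, fac_map, fac_map, ih, ih]

theorem GG_map (f : R →ₐ[ℝ] S) (V : (ℕ → Bool) → R) (d : Dat) (K : ℕ) (u u' : ℕ → Bool) :
    f (GG V d K u u') = GG (fun v => f (V v)) d K u u' := by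
  unfold GG
  rw [map_sub, map_add, map_add, itF_map, itF_map, itF_map, itF_map]

theorem GG_congr (a : PowerSeries ℝ) {V V' : (ℕ → Bool) → PowerSeries ℝ}
    (h : ∀ v, a ∣ V v - V' v) (d : Dat) (K : ℕ) (u u' : ℕ → Bool) :
    a ∣ GG V d K u u' - GG V' d K u u' := by
  have h1 : (fun v => Ideal.Quotient.mkₐ ℝ (Ideal.span {a}) (V v)) =
      fun v => Ideal.Quotient.mkₐ ℝ (Ideal.span {a}) (V' v) := by
    funext v
    refine (Ideal.Quotient.eq (I := Ideal.span {a})).2 ?_
    exact Ideal.mem_span_singleton.2 (h v)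
  have h2 := GG_map (Ideal.Quotient.mkₐ ℝ (Ideal.span {a})) V d K u u'
  have h3 := GG_map (Ideal.Quotient.mkₐ ℝ (Ideal.span {a})) V' d K u u'
  rw [h1, ← h3] at h2
  exact Ideal.mem_span_singleton.1 ((Ideal.Quotient.eq (I := Ideal.span {a})).1 h2)

end Pool.Agent.Ppr4
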