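import Pool.Agent.Ppr4.Defs

/-!
# The form is homogeneous

`V v = X (pt v)` has degree `1`, `II V` has degree `2`. `Sn n I x`, `I` of degree `2` and `x` of
degree `1`: every summand `(x^2 - I)^k I^(n-k)`, `k ≤ n`, has degree `2 k + 2 (n - k) = 2 n`
(`IsHomogeneous.pow`, `.mul`, `.sub`, `.sum`; `isHomogeneous_C` for `algebraMap`), so the product
with `x` has degree `2 n + 1`. `fac`: a sum of two multiples (the integer `sg b` is a constant,
`map_intCast C`). `itF`: by induction the degree is `dg d i`: `dg d 0 = 2 = 1 + 1` and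
`dg d (i+1) = (2 nn i + 1) + dg d i` (`Finset.sum_range_succ`). `GG`: sums and differences.
-/

namespace Pool.Agent.Ppr4

open Pool.Agent.Ppr Pool.Agent.Ppr2

variable {ι : Type}

private theorem Hom_Sn {n : ℕ} {I x : MvPolynomial ι ℝ} (hI : I.IsHomogeneous 2)
    (hx : x.IsHomogeneous 1) : (Sn n I x).IsHomogeneous (2 * n + 1) := by
  unfold Sn
  rw [add_comm (2 * n) 1]
  refine hx.mul (MvPolynomial.IsHomogeneous.sum _ _ _ fun k hk => ?_)
  rw [Finset.mem_range] at hk
  have h1 : (x ^ 2 - I).IsHomogeneous 2 := (hx.pow 2).sub hI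
  have h2 := (MvPolynomial.isHomogeneous_C ι (bb k)).mul ((h1.pow k).mul (hI.pow (n - k)))
  have e : 0 + (2 * k + 2 * (n - k)) = 2 * n := by omega
  rw [e] at h2
  exact h2

private theorem Hom_int (z : ℤ) {n : ℕ} {p : MvPolynomial ι ℝ} (hp : p.IsHomogeneous n) :
    ((z : MvPolynomial ι ℝ) * p).IsHomogeneous n := by
  have h1 : (z : MvPolynomial ι ℝ) = MvPolynomial.C (z : ℝ) := (map_intCast _ z).symm
  rw [h1]
  have h2 := (MvPolynomial.isHomogeneous_C ι (z : ℝ)).mul hp
  rwa [zero_add] at h2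

theorem fac_hom (pt : (ℕ → Bool) → ι) (c0 : Bool) (n : ℕ) (g : Bool) (v : ℕ → Bool) :
    (fac (fun v => (MvPolynomial.X (pt v) : MvPolynomial ι ℝ)) c0 n g v).IsHomogeneous
      (2 * n + 1) := by
  have hI : (II fun v => (MvPolynomial.X (pt v) : MvPolynomial ι ℝ)).IsHomogeneous 2 :=
    ((MvPolynomial.isHomogeneous_X ℝ (pt tt)).mul
      (MvPolynomial.isHomogeneous_X ℝ (pt ff))).neg
  exact (Hom_int _ (Hom_Sn hI (MvPolynomial.isHomogeneous_X ℝ _))).add
    (Hom_int _ (Hom_Sn hI (MvPolynomial.isHomogeneous_X ℝ _)))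

theorem itF_hom (pt : (ℕ → Bool) → ι) (d : Dat) (i : ℕ) (z : ℕ → Bool) :
    (itF (fun v => (MvPolynomial.X (pt v) : MvPolynomial ι ℝ)) d i z).IsHomogeneous
      (dg d i) := by
  induction i generalizing z with
  | zero =>
    have h1 := (fac_hom pt d.c0 0 d.e1 (app d.s1 z)).mul (fac_hom pt d.c0 0 d.e2 (app d.s2 z))
    have e : 2 * 0 + 1 + (2 * 0 + 1) = dg d 0 := by
      unfold dg
      simp
    rw [e] at h1
    exact h1
  | succ i ih =>
    have e : 2 * d.nn i + 1 + dg d i = dg d (i + 1) := by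
      unfold dg
      rw [Finset.sum_range_succ]
      omega
    rw [← e]
    exact ((fac_hom pt d.c0 (d.nn i) (d.g i) (cons true z)).mul (ih (cons true z))).add
      ((fac_hom pt d.c0 (d.nn i) (d.g i) (cons false z)).mul (ih (cons false z)))

theorem GG_hom (pt : (ℕ → Bool) → ι) (d : Dat) (K : ℕ) (u u' : ℕ → Bool) :
    (GG (fun v => (MvPolynomial.X (pt v) : MvPolynomial ι ℝ)) d K u u').IsHomogeneous
      (dg d K) := by
  exact ((itF_hom pt d K _).add (itF_hom pt d K _)).sub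
    ((itF_hom pt d K _).add (itF_hom pt d K _))

end Pool.Agent.Ppr4
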