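import Pool.Agent.Ppr4.SepA
import Pool.Agent.Ppr2.Sepr

/-!
# Every pair of different cusps has a cheap separator

Copy the proof of `exists_sepr` in `Ppr2/Sepr.lean` with `b = M` (write `M = m + 1`, the lemma
`win_Sepr` is private there, copy it): the cases `c1` (`sep_sub`) and `c2` (`sep_add`) have the
cost `1` (`M ≤ 1 * M`), `sep_quad` has the cost `2`. In the last case (`hab : w0 a ≠ w0 a'`) the
code `ψ` is not constant (`hnc`), and `w0 a = xor true (ψ fun _ => true)`,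
`w0 a' = xor false (ψ fun _ => false)` by `hψ` (the letters `w' (σ^[l+1] a)` are `true`, choose
`a, a'` with the windows of length `M2`), so `hab` gives
`(ψ fun _ => true) = ψ fun _ => false`; then `sep_code`.
-/

namespace Pool.Agent.Ppr4

open PowerSeries Pool.Agent.Ppr Pool.Agent.Ppr2

variable {ι : Type} {σ : ι → ι} {M : ℕ} {w0 w' : ι → Bool}

/-- prescribed letters -/
private theorem win_SepB {N b : ℕ} (hbM : b + 1 ≤ N) (hfull : full σ w' N) (x : Fin b → Bool)
    (c : Bool) : ∃ i, w' i = c ∧ ∀ l : Fin b, w' (σ^[l.1 + 1] i) = x l := by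
  obtain ⟨i, hi⟩ := hfull (fun k => if h : 0 < k.1 ∧ k.1 - 1 < b then x ⟨k.1 - 1, h.2⟩ else c)
  refine ⟨i, ?_, fun l => ?_⟩
  · have h1 := congrFun hi ⟨0, by omega⟩
    have h2 : w' (σ^[0] i) = c := by
      refine h1.trans (dif_neg ?_)
      intro h
      exact absurd h.1 (lt_irrefl _)
    exact h2
  · have h1 := congrFun hi ⟨l.1 + 1, by omega⟩
    have h3 : 0 < l.1 + 1 ∧ l.1 + 1 - 1 < b := ⟨Nat.succ_pos _, by simp⟩
    have h2 : w' (σ^[l.1 + 1] i) = x ⟨l.1 + 1 - 1, h3.2⟩ := h1.trans (dif_pos h3)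
    rw [h2]
    congr 1

theorem exists_sep4 {r : ℝ} (hr : 0 < r) (hr2 : 5 * r ≤ 1 / 10 ^ 8) {M2 : ℕ} (hM : 2 ≤ M)
    (hM2 : M + M ≤ M2) (hfull : full σ w' M2) (hfull0 : full σ w0 M2)
    (hne : w0 ≠ w') (hne' : w0 ≠ fun i => !(w' i)) (K ns : ℕ) (hK : M ≤ 2 ^ K)
    (hns : K ≤ 2 ^ ns) :
    ∃ g κ G, κ ≤ 2 + K * (2 * ns + 1) ∧ IsSepr r σ M w0 w' g κ G := by
  classical
  have hr64 : r ≤ 1 / 64 := by
    have h1 : (1 : ℝ) / 10 ^ 8 ≤ 1 / 64 := by norm_num
    linarith
  have hk : M ≤ 1 * M := by rw [one_mul]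
  have hc1 : 1 ≤ 2 + K * (2 * ns + 1) := (by norm_num : 1 ≤ 2).trans (Nat.le_add_right _ _)
  have hc2 : 2 ≤ 2 + K * (2 * ns + 1) := Nat.le_add_right _ _
  by_cases c1 : ∃ i j, w0 i ≠ w0 j ∧ agr σ w' M i j
  · obtain ⟨i, j, h0, h⟩ := c1
    exact ⟨_, _, _, hc1, of_sep hr.le hr64 (sep_sub h0 h hk)⟩
  by_cases c2 : ∃ i j, w0 i = w0 j ∧ w' i ≠ w' j ∧
      ∀ l, 0 < l → l < M → w' (σ^[l] i) = w' (σ^[l] j)
  · obtain ⟨i, j, h0, h1, h⟩ := c2
    exact ⟨_, _, _, hc1, of_sep hr.le hr64 (sep_add h0 h1 h hk)⟩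
  push Not at c1 c2
  obtain ⟨a, ha⟩ := hfull (fun _ => true)
  obtain ⟨a', ha'⟩ := hfull (fun _ => false)
  have ha2 : ∀ k < M2, w' (σ^[k] a) = true := fun k hk => congrFun ha ⟨k, hk⟩
  have ha2' : ∀ k < M2, w' (σ^[k] a') = false := fun k hk => congrFun ha' ⟨k, hk⟩
  have ha1 : ∀ k < M, w' (σ^[k] a) = true := fun k hk => ha2 k (by omega)
  have ha1' : ∀ k < M, w' (σ^[k] a') = false := fun k hk => ha2' k (by omega)
  by_cases hab : w0 a = w0 a'
  · obtain ⟨i, hi⟩ := hfull0 (fun _ => true)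
    obtain ⟨j, hj⟩ := hfull0 (fun _ => false)
    have hi1 : w0 (σ i) = true := congrFun hi ⟨1, by omega⟩
    have hj1 : w0 (σ j) = false := congrFun hj ⟨1, by omega⟩
    refine ⟨_, _, _, hc2, of_sep hr.le hr64 (sep_quad ha1 ha1' hab (i := i) (j := j) ?_)⟩
    rw [hi1, hj1]
    exact Bool.true_eq_false_eq_False
  obtain ⟨m, rfl⟩ : ∃ m, M = m + 1 := ⟨M - 1, by omega⟩
  have hwin := win_SepB (σ := σ) (b := m) (by omega) hfull
  choose J hJ1 hJ2 using fun x => hwin x true
  let ψ : (Fin m → Bool) → Bool := fun x => xor (w' (J x)) (w0 (J x))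
  have hψ : ∀ i, w0 i = xor (w' i) (ψ fun l : Fin m => w' (σ^[l.1 + 1] i)) := by
    intro i
    have e1 := hJ2 (fun l : Fin m => w' (σ^[l.1 + 1] i))
    generalize hj : J (fun l : Fin m => w' (σ^[l.1 + 1] i)) = j at e1
    show w0 i = xor (w' i) (xor (w' (J _)) (w0 (J _)))
    rw [hj]
    have e2 : ∀ l, 0 < l → l < m + 1 → w' (σ^[l] i) = w' (σ^[l] j) := by
      intro l hl0 hl
      have e3 := e1 ⟨l - 1, by omega⟩
      have e4 : l - 1 + 1 = l := by omega
      simp only [e4] at e3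
      exact e3.symm
    by_cases e5 : w' i = w' j
    · have e6 : w0 i = w0 j := by
        by_contra hcon
        refine c1 i j hcon ?_
        intro l hl
        rcases Nat.eq_zero_or_pos l with hl0 | hl0
        · rw [hl0]
          exact e5
        · exact e2 l hl0 hl
      rw [e5, e6]
      cases w' j <;> cases w0 j <;> rfl
    · have e6 : w0 i ≠ w0 j := by
        intro hcon
        obtain ⟨l, hl0, hl, hl'⟩ := c2 i j hcon e5
        exact hl' (e2 l hl0 hl)
      revert e5 e6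
      cases w' i <;> cases w' j <;> cases w0 i <;> cases w0 j <;> simp
  have hnc : ∃ x y, ψ x ≠ ψ y := by
    by_contra hcon
    push Not at hcon
    have h1 : ∀ i, w0 i = xor (w' i) (ψ fun _ => true) := by
      intro i
      rw [hψ i, hcon _ fun _ => true]
    cases hc : ψ (fun _ => true)
    · refine hne (funext fun i => ?_)
      rw [h1 i, hc]
      cases w' i <;> rfl
    · refine hne' (funext fun i => ?_)
      rw [h1 i, hc]
      cases w' i <;> rfl
  have hpm : (ψ fun _ => true) = ψ fun _ => false := by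
    have h1 : w0 a = xor true (ψ fun _ => true) := by
      have e1 : (fun l : Fin m => w' (σ^[l.1 + 1] a)) = fun _ => true :=
        funext fun l => ha2 (l.1 + 1) (by omega)
      have e2 : w' a = true := ha2 0 (by omega)
      rw [hψ a, e1, e2]
    have h2 : w0 a' = xor false (ψ fun _ => false) := by
      have e1 : (fun l : Fin m => w' (σ^[l.1 + 1] a')) = fun _ => false :=
        funext fun l => ha2' (l.1 + 1) (by omega)
      have e2 : w' a' = false := ha2' 0 (by omega)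
      rw [hψ a', e1, e2]
    rw [h1, h2] at hab
    revert hab
    cases ψ (fun _ => true) <;> cases ψ (fun _ => false) <;> simp
  exact sep_code hr hr2 (by omega : 0 < m + 1) (by omega : m + 1 + m ≤ M2) hfull hψ hnc hpm K ns
    hK hns

end Pool.Agent.Ppr4
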