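import Pool.Agent.Ppr.Num
import Pool.Agent.Ppr2.OntoA
import Pool.Agent.Ppr4.Defs

/-!
# The choice of the parameters: auxiliary inequalities

`num_en`: the proof of `NumC_en` in `Ppr2/NumC.lean` (private there; copy it). `num_last`: the
proof of `NumC_last`. `num_cost`: let `x = log s`, `l = log x`, `k = log l`, `k ≥ 2`, `M ≤ x`,
`K = Nat.clog 2 M`, `ns = Nat.clog 2 K`. `2 ^ (K - 1) ≤ M ≤ x` (`Nat.pow_pred_clog_lt_self`) gives
`(K - 1) log 2 ≤ l`, so `K ≤ 3 / 2 * l + 1 ≤ 3 l`; in the same way `2 ^ (ns - 1) ≤ K ≤ 3 l` gives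
`(ns - 1) log 2 ≤ k + log 3`, `ns ≤ 3 / 2 * k + 3 ≤ 3 k`. So
`2 + K (2 ns + 1) ≤ 2 + 3 l * (6 k + k) ≤ 23 l k`.
-/

namespace Pool.Agent.Ppr4

open Pool.Agent.Ppr Pool.Agent.Ppr2

private theorem NumA_clog {y : ℝ} {N : ℕ} (hN : 2 ≤ N) (hy : (N : ℝ) ≤ y) :
    ((Nat.clog 2 N : ℕ) : ℝ) * Real.log 2 ≤ Real.log y + Real.log 2 := by
  have h1 : 2 ^ (Nat.clog 2 N - 1) < N :=
    Nat.pow_pred_clog_lt_self (by norm_num) (by omega)
  have h2 : (1 : ℕ) ≤ Nat.clog 2 N := Nat.clog_pos (by norm_num) hN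
  have h3 : ((2 : ℝ) ^ (Nat.clog 2 N - 1)) ≤ y := by
    have h4 : ((2 ^ (Nat.clog 2 N - 1) : ℕ) : ℝ) < (N : ℝ) := by exact_mod_cast h1
    push_cast at h4
    exact h4.le.trans hy
  have h5 : Real.log ((2 : ℝ) ^ (Nat.clog 2 N - 1)) ≤ Real.log y :=
    Real.log_le_log (by positivity) h3
  rw [Real.log_pow] at h5
  have h6 : ((Nat.clog 2 N - 1 : ℕ) : ℝ) = (Nat.clog 2 N : ℝ) - 1 := by
    rw [Nat.cast_sub h2]
    norm_num
  rw [h6] at h5
  linarith [h5]

theorem num_cost {x : ℝ} (hx : 2 ≤ Real.log (Real.log x)) {M : ℕ} (hM : (M : ℝ) ≤ x)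
    (hM1 : 2 ≤ M) :
    ((2 + Nat.clog 2 M * (2 * Nat.clog 2 (Nat.clog 2 M) + 1) : ℕ) : ℝ) ≤
      23 * (Real.log x * Real.log (Real.log x)) := by
  have hx2 : (2 : ℝ) ≤ x := le_trans (by exact_mod_cast hM1) hM
  have hl0 : 0 < Real.log x := Real.log_pos (by linarith)
  have hlog2 : (2 : ℝ) / 3 ≤ Real.log 2 := by
    have := Real.log_two_gt_d9
    linarith
  have hlog2p : 0 < Real.log 2 := by linarith
  have hl7 : 7 ≤ Real.log x := by
    have h1 : Real.exp 2 ≤ Real.log x := by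
      rw [← Real.exp_log hl0]
      exact Real.exp_le_exp.2 hx
    have h2 : Real.exp 2 = Real.exp 1 * Real.exp 1 := by
      rw [← Real.exp_add]
      norm_num
    have h3 := Real.exp_one_gt_d9
    nlinarith
  set l := Real.log x with hl
  set k := Real.log l with hk
  set K := Nat.clog 2 M with hK
  have hK1 : 1 ≤ K := Nat.clog_pos (by norm_num) hM1
  have hKl : (K : ℝ) ≤ 3 / 2 * l + 1 := by
    have h1 := NumA_clog hM1 hM
    rw [← hK, ← hl] at h1
    have h2 : ((K : ℝ) - 1) * Real.log 2 ≤ l := by linarith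
    have h3 : (0 : ℝ) ≤ (K : ℝ) - 1 := by
      have : (1 : ℝ) ≤ K := by exact_mod_cast hK1
      linarith
    have h4 : ((K : ℝ) - 1) * (2 / 3) ≤ l :=
      (mul_le_mul_of_nonneg_left hlog2 h3).trans h2
    linarith
  have hK3 : (K : ℝ) ≤ 3 * l := by linarith
  set ns := Nat.clog 2 K with hns
  have hns3 : (ns : ℝ) ≤ 3 * k := by
    rcases Nat.lt_or_ge K 2 with h | h
    · have h1 : K = 1 := by omega
      have h2 : ns = 0 := by
        rw [hns, h1]
        exact Nat.clog_one_right 2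
      rw [h2]
      push_cast
      linarith
    · have h1 := NumA_clog h hK3
      rw [← hns] at h1
      have h2 : Real.log (3 * l) ≤ k + 2 * Real.log 2 := by
        have h3 : Real.log (3 * l) ≤ Real.log (4 * l) :=
          Real.log_le_log (by positivity) (by linarith)
        have h4 : Real.log (4 * l) = Real.log 4 + k := by
          rw [Real.log_mul (by norm_num) hl0.ne']
        have h5 : Real.log 4 = 2 * Real.log 2 := by
          rw [show (4 : ℝ) = 2 ^ 2 by norm_num, Real.log_pow]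
          norm_num
        linarith
      have h6 : ((ns : ℝ) - 3) * Real.log 2 ≤ k := by linarith
      rcases le_or_gt (ns : ℝ) 3 with h7 | h7
      · linarith
      · have h8 : ((ns : ℝ) - 3) * (2 / 3) ≤ k :=
          (mul_le_mul_of_nonneg_left hlog2 (by linarith)).trans h6
        linarith
  have hk2 : 2 ≤ k := hx
  have hns0 : (0 : ℝ) ≤ ns := Nat.cast_nonneg _
  have hK0 : (0 : ℝ) ≤ K := Nat.cast_nonneg _
  push_cast
  have h1 : (K : ℝ) * (2 * ns + 1) ≤ 3 * l * (2 * (3 * k) + 1) :=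
    mul_le_mul hK3 (by linarith) (by positivity) (by positivity)
  have h2 : 14 ≤ l * k := by nlinarith
  have h3 : 2 * l ≤ l * k := by nlinarith
  nlinarith

end Pool.Agent.Ppr4
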