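import Pool.Agent.Ppr4.NumE
import Pool.Agent.Ppr4.NumA

/-!
# The choice of the parameters

The template is `num_mainr` (`Ppr2/NumC.lean`), this case is much easier. Let `x = log s`,
`l = log x`, `k = log l`, `LL s = l k`; `s` is large, so `k ≥ 2`, `x ≥ 10^8`, and so on. Let
`M = ⌊x / 4000⌋`, `K = Nat.clog 2 M`, `ns = Nat.clog 2 K` (`Nat.le_pow_clog`). `E ≤ 5 N x`
(`num_en`, `s ≤ N` because `C LL s ≥ 1`), so `Q = 5200 s E / N^2 ≤ 26000 s x / N ≤
26000 x / (C l k)`. With `num_cost` the cost `2 + K (2 ns + 1)` is `≤ 23 l k`, so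
`Q / etar r0 ^ 2 * cost ≤ 26000 * 23 x / (C etar r0 ^ 2) ≤ M / 12` for
`C ≥ 12 * 8000 * 26000 * 23 / etar r0 ^ 2`, because `M ≥ x / 8000`. `8 Q ≤ 2 ^ M` because
`Q ≤ 26000 x` and `2 ^ M ≥ 2 ^ (x/4000 - 1)` for large `x`. `3 M ≤ clog 2 N` and
`40 E < (N / 2^(3M))^2`: `2^(3M) ≤ s^(1/1000)`, `N ≥ s` (as in `num_mainr`). The last inequality:
`num_last` with `y = x^(1/4)` and `E / N^2` in the place of `E` (as in `num_mainr`).
-/

namespace Pool.Agent.Ppr4

open Pool.Agent.Ppr Pool.Agent.Ppr2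

theorem num_main4 : ∃ C : ℝ, 0 < C ∧ ∃ s0 : ℕ, ∀ (s N : ℕ) (H : ℝ),
    s0 ≤ s → s * Real.log s - 2 * s ≤ H → C * (s * LL s) < N →
    (N : ℝ) ^ 2 ≤ 4 * ((s : ℝ) + 1) * En N H →
    ∃ M K ns : ℕ, 240 ≤ M ∧ M ≤ 2 ^ K ∧ K ≤ 2 ^ ns ∧ 3 * M ≤ Nat.clog 2 N ∧
      40 * En N H < ((N : ℝ) / 2 ^ (3 * M)) ^ 2 ∧
      5200 * s * En N H / (N : ℝ) ^ 2 / etar r0 ^ 2 * (2 + K * (2 * ns + 1) : ℕ) ≤ M / 12 ∧
      8 * (5200 * s * En N H / (N : ℝ) ^ 2) ≤ 2 ^ M ∧
      ((M / 3 : ℕ) : ℝ) * (H + Real.log 2 + Real.log 5) +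
        ((M * s + 1 : ℕ) : ℝ) / 2 * Real.log ((M * s + 1 : ℕ) : ℝ) +
        ((M * s : ℕ) : ℝ) * (M * Real.log 67) <
      M * (1 - 1 / 20 - 12 * En N H / (N : ℝ) ^ 2) * H := by
  obtain ⟨η, hη⟩ : ∃ η : ℝ, η = etar r0 ^ 2 := ⟨_, rfl⟩
  have hη0 : 0 < η := by
    rw [hη, etar, r0]
    positivity
  have hη1 : η ≤ 1 := by
    rw [hη, etar, r0]
    norm_num
  obtain ⟨C, hC⟩ : ∃ C : ℝ, C = 12 * 8000 * 26000 * 23 / η := ⟨_, rfl⟩
  have hCη : C * η = 12 * 8000 * 26000 * 23 := by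
    rw [hC, div_mul_cancel₀ _ hη0.ne']
  have hC0 : 0 < C := by
    rw [hC]
    positivity
  have hC1 : 1 ≤ C := by
    by_contra hcon
    rw [not_le] at hcon
    have h1 : C * η ≤ 1 * 1 := mul_le_mul hcon.le hη1 hη0.le zero_le_one
    rw [hCη] at h1
    norm_num at h1
  refine ⟨C, hC0, ⌈Real.exp (10 ^ 10)⌉₊, ?_⟩
  intro s N H hs0 hH hCN hsq
  have hs1 : Real.exp (10 ^ 10) ≤ s := (Nat.le_ceil _).trans (by exact_mod_cast hs0)
  have hs0' : (0 : ℝ) < s := lt_of_lt_of_le (Real.exp_pos _) hs1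
  have hx10 : (10 : ℝ) ^ 10 ≤ Real.log s := (Real.le_log_iff_exp_le hs0').2 hs1
  obtain ⟨k, hk⟩ : ∃ k : ℝ, k = Real.log (Real.log (Real.log s)) := ⟨_, rfl⟩
  have hLL : LL s = Real.log (Real.log s) * k := by rw [LL, hk]
  rw [hLL] at hCN
  set x : ℝ := Real.log s with hx
  have hx1 : (10000000000 : ℝ) ≤ x := by
    have : ((10 : ℝ) ^ 10) = 10000000000 := by norm_num
    linarith
  have hx0 : (10 : ℝ) ^ 8 ≤ x := by
    have : ((10 : ℝ) ^ 8) = 100000000 := by norm_num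
    linarith
  have hxpos : 0 < x := by linarith
  have hexpx : Real.exp x = s := Real.exp_log hs0'
  set l : ℝ := Real.log x with hl
  have he8 : Real.exp 8 ≤ 6561 := by
    have h1 : Real.exp 8 = Real.exp 1 ^ 8 := by
      rw [← Real.exp_nat_mul]
      norm_num
    have h2 : Real.exp 1 ≤ 3 := by
      have := Real.exp_one_lt_d9
      linarith
    rw [h1]
    calc Real.exp 1 ^ 8 ≤ 3 ^ 8 := pow_le_pow_left₀ (Real.exp_pos _).le h2 8
      _ = 6561 := by norm_num
  have hl8 : 8 ≤ l := by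
    rw [hl, Real.le_log_iff_exp_le hxpos]
    linarith
  have hk2 : 2 ≤ k := by
    rw [hk, Real.le_log_iff_exp_le (by linarith)]
    refine le_trans ?_ hl8
    have h1 : Real.exp 2 = Real.exp 1 * Real.exp 1 := by
      rw [← Real.exp_add]
      norm_num
    have h2 : Real.exp 1 ≤ 2.8 := by
      have := Real.exp_one_lt_d9
      linarith
    rw [h1]
    have h3 : Real.exp 1 * Real.exp 1 ≤ 2.8 * 2.8 :=
      mul_le_mul h2 h2 (Real.exp_pos _).le (by norm_num)
    refine h3.trans ?_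
    norm_num
  have hlk : 1 ≤ l * k := by nlinarith
  have hlk0 : 0 < l * k := by linarith
  set y : ℝ := Real.exp (l / 4) with hy
  have hy0 : 0 < y := Real.exp_pos _
  have hyx : y ^ 4 = x := by
    rw [hy, ← Real.exp_nat_mul]
    have : ((4 : ℕ) : ℝ) * (l / 4) = l := by push_cast; ring
    rw [this, hl, Real.exp_log hxpos]
  have hy1 : 100 ≤ y := by
    by_contra hcon
    rw [not_le] at hcon
    have h1 : y ^ 4 < 100 ^ 4 := pow_lt_pow_left₀ hcon hy0.le (by norm_num)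
    rw [hyx] at h1
    norm_num at h1
    linarith
  have hly : l ≤ 4 * y := by
    have h1 : l / 4 + 1 ≤ y := Real.add_one_le_exp _
    linarith
  have hsx : x ^ 2 / 2 ≤ s := by
    rw [← hexpx]
    have := Real.quadratic_le_exp_of_nonneg hxpos.le
    linarith
  have hsx' : 50000000 * x ≤ s := by nlinarith
  -- `N`
  have hNlow : C * (l * k) * s < N := by
    have h1 : C * (s * (l * k)) = C * (l * k) * s := by ring
    linarith
  have hClk : 1 ≤ C * (l * k) := by nlinarith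
  have hNs : (s : ℝ) ≤ N := by
    have h2 : (s : ℝ) ≤ C * (l * k) * s := le_mul_of_one_le_left hs0'.le hClk
    linarith
  have hNs' : s ≤ N := by exact_mod_cast hNs
  have hN0 : (0 : ℝ) < N := by linarith
  have hEn := num_en s N H hx0 hH hNs' hsq
  rw [← hx] at hEn
  have hEn0 : 0 ≤ En N H := by
    have h1 : 0 ≤ 4 * ((s : ℝ) + 1) * En N H := (sq_nonneg _).trans hsq
    by_contra hcon
    rw [not_le] at hcon
    have h2 : (4 * ((s : ℝ) + 1)) * En N H < 0 := mul_neg_of_pos_of_neg (by positivity) hcon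
    linarith
  have hENN : En N H / (N : ℝ) ^ 2 ≤ 5 * x / N := by
    rw [div_le_div_iff₀ (by positivity) hN0]
    calc En N H * N ≤ (5 * N * x) * N := mul_le_mul_of_nonneg_right hEn hN0.le
      _ = _ := by ring
  -- `Q`
  set Q : ℝ := 5200 * s * En N H / (N : ℝ) ^ 2 with hQ
  have hQ0 : 0 ≤ Q := by positivity
  have hQl : Q * (C * (l * k)) ≤ 26000 * x := by
    have h2 : Q = 5200 * s * (En N H / (N : ℝ) ^ 2) := by rw [hQ]; ring
    have h3 : Q ≤ 26000 * (s * x) / N := by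
      rw [h2]
      calc 5200 * s * (En N H / (N : ℝ) ^ 2) ≤ 5200 * s * (5 * x / N) :=
            mul_le_mul_of_nonneg_left hENN (by positivity)
        _ = _ := by ring
    calc Q * (C * (l * k)) ≤ 26000 * (s * x) / N * (C * (l * k)) :=
          mul_le_mul_of_nonneg_right h3 (by linarith)
      _ = 26000 * x * (C * (l * k) * s) / N := by ring
      _ ≤ 26000 * x := by
          rw [div_le_iff₀ hN0]
          exact mul_le_mul_of_nonneg_left hNlow.le (by positivity)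
  -- the parameters
  set M : ℕ := ⌊x / 4000⌋₊ with hM
  have hM1 : (M : ℝ) ≤ x / 4000 := Nat.floor_le (by positivity)
  have hM2 : x / 4000 < M + 1 := Nat.lt_floor_add_one _
  have hM240 : 240 ≤ M := by
    have : (240 : ℝ) ≤ M := by linarith
    exact_mod_cast this
  obtain ⟨c, hc⟩ : ∃ c : ℝ,
      c = ((2 + Nat.clog 2 M * (2 * Nat.clog 2 (Nat.clog 2 M) + 1) : ℕ) : ℝ) := ⟨_, rfl⟩
  have hc2 : 2 ≤ c := by
    rw [hc]
    exact_mod_cast Nat.le_add_right 2 _
  have hcost : c ≤ 23 * (l * k) := by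
    have h1 := num_cost (x := x) (by rw [← hl, ← hk]; exact hk2) (M := M) (by linarith)
      (by omega)
    rw [← hc, ← hl, ← hk] at h1
    exact h1
  have hQc : Q / η * c ≤ x / 96000 := by
    have h1 : Q / η * c ≤ Q / η * (23 * (l * k)) :=
      mul_le_mul_of_nonneg_left hcost (by positivity)
    have h2 : Q / η * (23 * (l * k)) * (C * η) = 23 * (Q * (C * (l * k))) := by
      field_simp
    rw [hCη] at h2
    linarith
  refine ⟨M, Nat.clog 2 M, Nat.clog 2 (Nat.clog 2 M), hM240, Nat.le_pow_clog one_lt_two _,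
    Nat.le_pow_clog one_lt_two _, ?_, ?_, ?_, ?_, ?_⟩
  · -- `3 M ≤ clog2 N`
    have h1 : N ≤ 2 ^ Nat.clog 2 N := Nat.le_pow_clog one_lt_two N
    have h2 : Real.log N ≤ (Nat.clog 2 N : ℝ) * Real.log 2 := by
      rw [← Real.log_pow]
      refine Real.log_le_log hN0 ?_
      exact_mod_cast h1
    have h3 : x ≤ Real.log N := Real.log_le_log hs0' hNs
    have h4 : Real.log 2 ≤ 1 := by
      have := Real.log_le_sub_one_of_pos (show (0 : ℝ) < 2 by norm_num)
      linarith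
    have h5 : (Nat.clog 2 N : ℝ) * Real.log 2 ≤ (Nat.clog 2 N : ℝ) * 1 :=
      mul_le_mul_of_nonneg_left h4 (Nat.cast_nonneg _)
    have h6 : 3 * (M : ℝ) ≤ (Nat.clog 2 N : ℝ) := by linarith
    exact_mod_cast h6
  · -- `40 En < (N / 2 ^ (3 M)) ^ 2`
    have h1 : ((2 : ℝ) ^ (3 * M)) ^ 2 ≤ Real.exp (x / 500) := by
      have h2 : ((2 : ℝ) ^ (3 * M)) ^ 2 = 4 ^ (3 * M) := by
        rw [← pow_mul, mul_comm, pow_mul]
        norm_num
      have h3 : (4 : ℝ) ≤ Real.exp 2 := by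
        have := Real.quadratic_le_exp_of_nonneg (show (0 : ℝ) ≤ 2 by norm_num)
        linarith
      rw [h2]
      calc (4 : ℝ) ^ (3 * M) ≤ Real.exp 2 ^ (3 * M) := pow_le_pow_left₀ (by norm_num) h3 _
        _ = Real.exp (((3 * M : ℕ) : ℝ) * 2) := by rw [← Real.exp_nat_mul]
        _ ≤ Real.exp (x / 500) := Real.exp_le_exp.2 (by push_cast; linarith)
    have h2 : 200 * x * Real.exp (x / 500) < s := by
      have h3 : Real.exp (x / 500) ≤ Real.exp (x / 2) := Real.exp_le_exp.2 (by linarith)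
      have h4 : 200 * x < Real.exp (x / 2) := by
        have := Real.quadratic_le_exp_of_nonneg (show 0 ≤ x / 2 by positivity)
        nlinarith
      have h5 : Real.exp (x / 2) * Real.exp (x / 2) = s := by
        rw [← Real.exp_add, add_halves, hexpx]
      rw [← h5]
      have h6 : 0 < Real.exp (x / 500) := Real.exp_pos _
      calc 200 * x * Real.exp (x / 500) < Real.exp (x / 2) * Real.exp (x / 500) :=
            mul_lt_mul_of_pos_right h4 h6
        _ ≤ _ := mul_le_mul_of_nonneg_left h3 (Real.exp_pos _).le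
    rw [div_pow, lt_div_iff₀ (by positivity)]
    calc 40 * En N H * ((2 : ℝ) ^ (3 * M)) ^ 2 ≤ 40 * (5 * N * x) * Real.exp (x / 500) :=
          mul_le_mul (by linarith) h1 (by positivity) (by positivity)
      _ = (200 * x * Real.exp (x / 500)) * N := by ring
      _ < s * N := mul_lt_mul_of_pos_right h2 hN0
      _ ≤ N * N := mul_le_mul_of_nonneg_right hNs hN0.le
      _ = (N : ℝ) ^ 2 := by ring
  · -- the cost
    rw [← hη, ← hc]
    refine hQc.trans ?_
    linarith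
  · -- `8 Q ≤ 2 ^ M`
    have h1 : (M : ℝ) < 2 ^ M := by exact_mod_cast Nat.lt_two_pow_self
    have h2 : Q ≤ Q / η := by
      rw [le_div_iff₀ hη0]
      exact mul_le_of_le_one_right hQ0 hη1
    have h3 : Q / η * 2 ≤ Q / η * c := mul_le_mul_of_nonneg_left hc2 (by positivity)
    linarith
  · have h1 : 12 * En N H / (N : ℝ) ^ 2 = 12 * (En N H / (N : ℝ) ^ 2) := by ring
    rw [h1]
    refine num_last s M H (En N H / (N : ℝ) ^ 2) x y rfl (by linarith) (by linarith) hy1 hyx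
      hly hM240 (by linarith) hH ?_
    have h2 : 5 * x / N ≤ 1 / 1200 := by
      rw [div_le_div_iff₀ hN0 (by norm_num)]
      linarith
    linarith

end Pool.Agent.Ppr4
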