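import Pool.Agent.Ppr2.Main
import Pool.Agent.Ppr4.MainA
import Pool.Agent.Ppr4.Num

/-!
# The theorem, fourth version
-/

namespace Pool.Agent.Ppr4

open Pool.Agent.Ppr Pool.Agent.Ppr2 Pool.Agent.Ppr.Sys

/-- `log log log s` is positive for `s ≥ 16` -/
theorem LL_pos {s : ℕ} (hs : 16 ≤ s) : LL 16 ≤ LL s ∧ 0 < LL 16 := by
  have hl2 : (0.6931471803 : ℝ) < Real.log 2 := Real.log_two_gt_d9
  have he : Real.exp 1 < 2.7182818286 := Real.exp_one_lt_d9
  have h16 : Real.log ((16 : ℕ) : ℝ) = 4 * Real.log 2 := by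
    have : ((16 : ℕ) : ℝ) = (2 : ℝ) ^ 4 := by norm_num
    rw [this, Real.log_pow]
    norm_num
  have h1 : Real.exp 1 < Real.log ((16 : ℕ) : ℝ) := by rw [h16]; linarith
  have h1' : (1 : ℝ) < Real.log ((16 : ℕ) : ℝ) := by rw [h16]; linarith
  have h2 : 1 < Real.log (Real.log ((16 : ℕ) : ℝ)) := by
    rw [Real.lt_log_iff_exp_lt (by linarith)]
    exact h1
  have h3 : 0 < Real.log (Real.log (Real.log ((16 : ℕ) : ℝ))) := Real.log_pos h2
  have hss : ((16 : ℕ) : ℝ) ≤ s := by exact_mod_cast hs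
  have h4 : Real.log ((16 : ℕ) : ℝ) ≤ Real.log s := Real.log_le_log (by norm_num) hss
  have h5 : Real.log (Real.log ((16 : ℕ) : ℝ)) ≤ Real.log (Real.log s) :=
    Real.log_le_log (by linarith) h4
  have h6 : Real.log (Real.log (Real.log ((16 : ℕ) : ℝ))) ≤
      Real.log (Real.log (Real.log s)) := Real.log_le_log (by linarith) h5
  refine ⟨mul_le_mul h5 h6 h3.le (by linarith), mul_pos (by linarith) h3⟩

/-- the bound for systems -/
theorem sys_bound4 : ∃ C : ℝ, 0 < C ∧ ∀ (ι : Type) [Fintype ι]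
    [DecidableEq ι] (S : Sys ι), 3 ≤ S.D.primeFactors.card → (Fintype.card ι : ℝ) ≤
      C * max 1 (S.D.primeFactors.card * LL S.D.primeFactors.card) := by
  obtain ⟨C, hC, s0, hmain⟩ := num_main4
  refine sys_bound_of (fun s : ℕ => max 1 (s * LL s)) ?_ C s0 ?_
  · intro s _
    exact le_max_left _ _
  · intro ι _ _ S hs hs0 hN
    by_contra hcon
    push Not at hcon
    have hcon' : C * (S.D.primeFactors.card * LL S.D.primeFactors.card) <
        (Fintype.card ι : ℝ) :=
      lt_of_le_of_lt (mul_le_mul_of_nonneg_left (le_max_right _ _) hC.le) hcon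
    have hH := Hs_pos S hs
    have hsq := core_sq S hH hN
    rw [Es_eq] at hsq
    obtain ⟨M, K, ns, h1, h2, h3, h4, h5, h6, h7, h8⟩ :=
      hmain S.D.primeFactors.card (Fintype.card ι) (Hs S) hs0 (Hs_ge S _ rfl hs) hcon' hsq
    have := core4 S hH _ rfl (by omega) M K ns r0 h1 (by unfold r0; positivity)
      (by unfold r0; norm_num) h2 h3 h4 (by rw [Es_eq]; exact h5) (by rw [Es_eq]; exact h6)
      (by rw [Es_eq]; exact h7)
    rw [Es_eq] at this
    exact absurd h8 (not_lt.2 this)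

/-- the theorem -/
theorem main_bound4 : ∃ C : ℝ, 0 < C ∧ ∀ c : ℚ,
    16 ≤ c.den.primeFactors.card → (PrePer c).Finite ∧ ((PrePer c).ncard : ℝ) ≤
      C * (c.den.primeFactors.card * (Real.log (Real.log c.den.primeFactors.card) *
        Real.log (Real.log (Real.log c.den.primeFactors.card)))) := by
  obtain ⟨C, hC, h⟩ := sys_bound4
  have h0 := (LL_pos (le_refl 16)).2
  refine ⟨C * (1 + 1 / LL 16), by positivity, fun c hc => ?_⟩
  obtain ⟨hfin, hcard⟩ := preper_of (fun s : ℕ => max 1 (s * LL s))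
    (fun s _ => le_max_left _ _) C hC h c (by omega)
  refine ⟨hfin, hcard.trans ?_⟩
  have h1 := (LL_pos hc).1
  have h2 : (1 : ℝ) ≤ c.den.primeFactors.card := by exact_mod_cast (by omega)
  show C * max 1 ((c.den.primeFactors.card : ℝ) * LL c.den.primeFactors.card) ≤
    C * (1 + 1 / LL 16) * (c.den.primeFactors.card * LL c.den.primeFactors.card)
  rw [mul_assoc]
  refine mul_le_mul_of_nonneg_left ?_ hC.le
  have h3 : LL 16 ≤ (c.den.primeFactors.card : ℝ) * LL c.den.primeFactors.card := by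
    calc LL 16 ≤ LL c.den.primeFactors.card := h1
      _ = 1 * LL c.den.primeFactors.card := (one_mul _).symm
      _ ≤ _ := mul_le_mul_of_nonneg_right h2 (h0.le.trans h1)
  have h4 : 1 ≤ 1 / LL 16 * ((c.den.primeFactors.card : ℝ) * LL c.den.primeFactors.card) := by
    rw [one_div, inv_mul_eq_div, le_div_iff₀ h0]
    linarith
  have h5 : 0 ≤ (c.den.primeFactors.card : ℝ) * LL c.den.primeFactors.card := by linarith
  rw [add_mul, one_mul]
  refine max_le (by linarith) (by linarith)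

end Pool.Agent.Ppr4
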