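import Pool.Agent.Ppr4.BinA
import Pool.Agent.Ppr2.NrmC

/-!
# The norm of the form at every word

`Sn_nrm`: `‖x‖ ≤ 31/30`, `‖I‖ ≤ 16/15 + 1/450 ≤ 11/10`, so `‖x^2 - I‖ ≤ 11/5`;
`|bb k| ≤ 1 ≤ binom(n,k)` (`bb_abs`), `algebraMap ℝ _ c = C c`, so the sum has norm
`≤ ∑_(k ≤ n) binom(n,k) (11/5)^k (11/10)^(n-k) = (33/10)^n` (`add_pow`; `nrmr_sum_le`,
`nrmr_C_mul`, `nrmr_mul_le`, `nrmr_pow_le`), times `31/30`. `fac_nrm`: two such summands
(`sg b = ± 1`: `nrmr_neg`), `2 (31/30) (33/10)^n`; twice this is `≤ 5^(2 n + 1)`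
(`62/15 ≤ 5`, `33/10 ≤ 25`). `itF_nrm`: `‖F0‖ ≤ (31/15)^2`; a step multiplies by
`2 * (31/15) (33/10)^n ≤ 5^(2 n + 1)`. `GG_nrm`: four terms, `4 (31/15)^2 ≤ 25`, and `dg d i =
2 + ∑ (2 nn t + 1)`.
-/

namespace Pool.Agent.Ppr4

open PowerSeries Pool.Agent.Ppr Pool.Agent.Ppr2

private theorem NrmG_sg {r : ℝ} (M : ℕ) (b : Bool) (f : PowerSeries ℝ) :
    nrmr r M ((sg b : PowerSeries ℝ) * f) = nrmr r M f := by
  cases b
  · have h : ((sg false : ℤ) : PowerSeries ℝ) * f = -f := by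
      simp [sg]
    rw [h, nrmr_neg]
  · have h : ((sg true : ℤ) : PowerSeries ℝ) * f = f := by
      simp [sg]
    rw [h]

theorem Sn_nrm {r : ℝ} (hr : 0 ≤ r) (n M : ℕ) (I x : PowerSeries ℝ)
    (hx : nrmr r M x ≤ 31 / 30) (hI : nrmr r M I ≤ 11 / 10) :
    nrmr r M (Sn n I x) ≤ 31 / 30 * (33 / 10) ^ n := by
  have hx0 := nrmr_nonneg hr M x
  have hI0 := nrmr_nonneg hr M I
  have hA0 := nrmr_nonneg hr M (x ^ 2 - I)
  have hA : nrmr r M (x ^ 2 - I) ≤ 11 / 5 := by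
    refine (nrmr_sub_le hr M _ _).trans ?_
    have h1 := nrmr_pow_le hr M 2 x
    have h2 : nrmr r M x ^ 2 ≤ (31 / 30) ^ 2 := pow_le_pow_left₀ hx0 hx 2
    have h3 : ((31 : ℝ) / 30) ^ 2 + 11 / 10 ≤ 11 / 5 := by norm_num
    linarith
  unfold Sn
  refine (nrmr_mul_le hr M _ _).trans ?_
  refine mul_le_mul hx ?_ (nrmr_nonneg hr M _) (by norm_num)
  refine (nrmr_sum_le hr M _ _).trans ?_
  have e : ((33 : ℝ) / 10) ^ n =
      ∑ k ∈ Finset.range (n + 1), (11 / 5 : ℝ) ^ k * (11 / 10) ^ (n - k) * (n.choose k) := by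
    rw [← add_pow]
    norm_num
  rw [e]
  refine Finset.sum_le_sum fun k hk => ?_
  have hk' : k ≤ n := Nat.lt_succ_iff.1 (Finset.mem_range.1 hk)
  have hc : algebraMap ℝ (PowerSeries ℝ) (bb k) = C (bb k) := rfl
  rw [hc, nrmr_C_mul]
  have h1 : nrmr r M ((x ^ 2 - I) ^ k * I ^ (n - k)) ≤ (11 / 5) ^ k * (11 / 10) ^ (n - k) := by
    refine (nrmr_mul_le hr M _ _).trans ?_
    refine mul_le_mul ((nrmr_pow_le hr M _ _).trans (pow_le_pow_left₀ hA0 hA k))
      ((nrmr_pow_le hr M _ _).trans (pow_le_pow_left₀ hI0 hI _)) (nrmr_nonneg hr M _)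
      (by positivity)
  have h2 : (1 : ℝ) ≤ n.choose k := by
    exact_mod_cast Nat.choose_pos hk'
  have h3 := nrmr_nonneg hr M ((x ^ 2 - I) ^ k * I ^ (n - k))
  calc |bb k| * nrmr r M ((x ^ 2 - I) ^ k * I ^ (n - k))
      ≤ 1 * ((11 / 5) ^ k * (11 / 10) ^ (n - k)) :=
        mul_le_mul (bb_abs k) h1 h3 zero_le_one
    _ = (11 / 5) ^ k * (11 / 10) ^ (n - k) * 1 := by ring
    _ ≤ _ := mul_le_mul_of_nonneg_left h2 (by positivity)

private theorem NrmG_II {r : ℝ} (hr : 0 ≤ r) (M : ℕ) (V : (ℕ → Bool) → PowerSeries ℝ)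
    (hV : ∀ v, nrmr r M (V v) ≤ 31 / 30) : nrmr r M (II V) ≤ 11 / 10 := by
  unfold II
  rw [nrmr_neg]
  refine (nrmr_mul_le hr M _ _).trans ?_
  refine (mul_le_mul (hV _) (hV _) (nrmr_nonneg hr M _) (by norm_num)).trans ?_
  norm_num

theorem fac_nrm {r : ℝ} (hr : 0 ≤ r) (M : ℕ) (V : (ℕ → Bool) → PowerSeries ℝ)
    (hV : ∀ v, nrmr r M (V v) ≤ 31 / 30) (c0 : Bool) (n : ℕ) (g : Bool) (v : ℕ → Bool) :
    nrmr r M (fac V c0 n g v) ≤ 31 / 15 * (33 / 10) ^ n := by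
  unfold fac
  refine (nrmr_add_le hr M _ _).trans ?_
  rw [NrmG_sg, NrmG_sg]
  have h1 := Sn_nrm hr n M (II V) (V tt) (hV _) (NrmG_II hr M V hV)
  have h2 := Sn_nrm hr n M (II V) (V v) (hV _) (NrmG_II hr M V hV)
  linarith

theorem itF_nrm {r : ℝ} (hr : 0 ≤ r) (M : ℕ) (V : (ℕ → Bool) → PowerSeries ℝ)
    (hV : ∀ v, nrmr r M (V v) ≤ 31 / 30) (d : Dat) (i : ℕ) (z : ℕ → Bool) :
    4 * nrmr r M (itF V d i z) ≤ 5 ^ dg d i := by
  induction i generalizing z with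
  | zero =>
    have h1 : dg d 0 = 2 := by
      unfold dg
      simp
    rw [h1]
    change 4 * nrmr r M (F0 V d z) ≤ 5 ^ 2
    have h2 : nrmr r M (F0 V d z) ≤ 31 / 15 * (31 / 15) := by
      unfold F0
      refine (nrmr_mul_le hr M _ _).trans ?_
      have h3 := fac_nrm hr M V hV d.c0 0 d.e1 (app d.s1 z)
      have h4 := fac_nrm hr M V hV d.c0 0 d.e2 (app d.s2 z)
      rw [pow_zero, mul_one] at h3 h4
      exact mul_le_mul h3 h4 (nrmr_nonneg hr M _) (by norm_num)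
    have h5 : (4 : ℝ) * (31 / 15 * (31 / 15)) ≤ 5 ^ 2 := by norm_num
    linarith
  | succ i ih =>
    have h1 : dg d (i + 1) = dg d i + (2 * d.nn i + 1) := by
      unfold dg
      rw [Finset.sum_range_succ, ← add_assoc]
    rw [h1]
    change 4 * nrmr r M (stp (fac V d.c0 (d.nn i) (d.g i)) (itF V d i) z) ≤ _
    unfold stp
    have key : ∀ w : ℕ → Bool, 4 * nrmr r M (fac V d.c0 (d.nn i) (d.g i) w * itF V d i w) ≤
        31 / 15 * (33 / 10) ^ d.nn i * 5 ^ dg d i := by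
      intro w
      have h2 := nrmr_mul_le hr M (fac V d.c0 (d.nn i) (d.g i) w) (itF V d i w)
      have h3 := fac_nrm hr M V hV d.c0 (d.nn i) (d.g i) w
      have h4 := nrmr_nonneg hr M (itF V d i w)
      have h5 := nrmr_nonneg hr M (fac V d.c0 (d.nn i) (d.g i) w)
      calc 4 * nrmr r M (fac V d.c0 (d.nn i) (d.g i) w * itF V d i w)
          ≤ 4 * (nrmr r M (fac V d.c0 (d.nn i) (d.g i) w) * nrmr r M (itF V d i w)) := by
            linarith
        _ = nrmr r M (fac V d.c0 (d.nn i) (d.g i) w) * (4 * nrmr r M (itF V d i w)) := by ring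
        _ ≤ 31 / 15 * (33 / 10) ^ d.nn i * 5 ^ dg d i :=
            mul_le_mul h3 (ih w) (by positivity) (by positivity)
    have h6 := nrmr_add_le hr M
      (fac V d.c0 (d.nn i) (d.g i) (cons true z) * itF V d i (cons true z))
      (fac V d.c0 (d.nn i) (d.g i) (cons false z) * itF V d i (cons false z))
    have h7 := key (cons true z)
    have h8 := key (cons false z)
    have h9 : (33 / 10 : ℝ) ^ d.nn i ≤ 25 ^ d.nn i :=
      pow_le_pow_left₀ (by norm_num) (by norm_num) _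
    have h10 : (5 : ℝ) ^ (dg d i + (2 * d.nn i + 1)) = 5 * 25 ^ d.nn i * 5 ^ dg d i := by
      rw [pow_add, pow_succ, pow_mul]
      norm_num
      ring
    rw [h10]
    calc 4 * nrmr r M (fac V d.c0 (d.nn i) (d.g i) (cons true z) * itF V d i (cons true z) +
          fac V d.c0 (d.nn i) (d.g i) (cons false z) * itF V d i (cons false z))
        ≤ 2 * (31 / 15 * (33 / 10) ^ d.nn i * 5 ^ dg d i) := by linarith
      _ = (62 / 15 * (33 / 10) ^ d.nn i) * 5 ^ dg d i := by ring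
      _ ≤ 5 * 25 ^ d.nn i * 5 ^ dg d i := by
          refine mul_le_mul_of_nonneg_right ?_ (by positivity)
          refine mul_le_mul (by norm_num) h9 (by positivity) (by norm_num)

theorem GG_nrm {r : ℝ} (hr : 0 ≤ r) (M : ℕ) (V : (ℕ → Bool) → PowerSeries ℝ)
    (hV : ∀ v, nrmr r M (V v) ≤ 31 / 30) (d : Dat) (K : ℕ) (u u' : ℕ → Bool) :
    nrmr r M (GG V d K u u') ≤ 5 ^ dg d K := by
  unfold GG
  have h1 := nrmr_sub_le hr M (itF V d K (cons true u) + itF V d K (cons false u))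
    (itF V d K (cons true u') + itF V d K (cons false u'))
  have h2 := nrmr_add_le hr M (itF V d K (cons true u)) (itF V d K (cons false u))
  have h3 := nrmr_add_le hr M (itF V d K (cons true u')) (itF V d K (cons false u'))
  have a := itF_nrm hr M V hV d K (cons true u)
  have b := itF_nrm hr M V hV d K (cons false u)
  have c := itF_nrm hr M V hV d K (cons true u')
  have e := itF_nrm hr M V hV d K (cons false u')
  linarith

end Pool.Agent.Ppr4
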