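import Pool.Agent.Ppr.Num

/-!
# The choice of the parameters: the energy and the last inequality

The lemmas `NumC_en` and `NumC_last` of `Ppr2/NumC.lean`, which are private there.
-/

namespace Pool.Agent.Ppr4

open Pool.Agent.Ppr

/-- the energy is at most `5 N log s` -/
theorem num_en (s N : ℕ) (H : ℝ) (hx0 : 10 ^ 8 ≤ Real.log s)
    (hH : s * Real.log s - 2 * s ≤ H) (hNs : s ≤ N)
    (hsq : (N : ℝ) ^ 2 ≤ 4 * ((s : ℝ) + 1) * En N H) :
    En N H ≤ 5 * N * Real.log s := by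
  set x : ℝ := Real.log s with hx
  have hs1 : 100 < s := by
    by_contra hcon
    rw [not_lt] at hcon
    rcases Nat.eq_zero_or_pos s with h0 | h0
    · rw [hx, h0] at hx0
      norm_num at hx0
    · have h1 : x ≤ Real.log 100 :=
        Real.log_le_log (by exact_mod_cast h0) (by exact_mod_cast hcon)
      have h2 : Real.log 100 ≤ 100 - 1 := Real.log_le_sub_one_of_pos (by norm_num)
      linarith
  have hsr : (100 : ℝ) < s := by exact_mod_cast hs1
  have hNr : (s : ℝ) ≤ N := by exact_mod_cast hNs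
  have hN0 : (0 : ℝ) < N := by linarith
  have hsx : 0 < (s : ℝ) * x := by positivity
  have hH2 : s * x / 2 ≤ H := by nlinarith
  have hH0 : 0 < H := by linarith
  have hH24 : 24 * ((s : ℝ) + 1) ≤ H := by nlinarith
  set k : ℕ := Nat.clog 2 N with hk
  have hEn : En N H = N * ((k : ℝ) + 1) + 3 / H * (N : ℝ) ^ 2 := rfl
  -- `N ≤ 8 (s + 1) (k + 1)`
  have h1 : 4 * ((s : ℝ) + 1) * (3 / H * (N : ℝ) ^ 2) ≤ (N : ℝ) ^ 2 / 2 := by
    have h2 : 12 * ((s : ℝ) + 1) / H ≤ 1 / 2 := by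
      rw [div_le_iff₀ hH0]
      linarith
    calc 4 * ((s : ℝ) + 1) * (3 / H * (N : ℝ) ^ 2)
        = (12 * ((s : ℝ) + 1) / H) * (N : ℝ) ^ 2 := by ring
      _ ≤ 1 / 2 * (N : ℝ) ^ 2 := mul_le_mul_of_nonneg_right h2 (by positivity)
      _ = _ := by ring
  have h3 : (N : ℝ) ≤ 8 * ((s : ℝ) + 1) * ((k : ℝ) + 1) := by
    rw [hEn, mul_add] at hsq
    have h4 : (N : ℝ) * N ≤ (8 * ((s : ℝ) + 1) * ((k : ℝ) + 1)) * N := by nlinarith
    exact le_of_mul_le_mul_right h4 hN0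
  -- `k`
  have hlog2 : (0.6931471803 : ℝ) < Real.log 2 := Real.log_two_gt_d9
  have hkN : ((k : ℝ) - 1) * Real.log 2 ≤ Real.log N := by
    have h4 : 2 ^ (k - 1) < N := Nat.pow_pred_clog_lt_self one_lt_two (by omega)
    have h5 : ((k - 1 : ℕ) : ℝ) * Real.log 2 ≤ Real.log N := by
      rw [← Real.log_pow]
      refine Real.log_le_log (by positivity) ?_
      exact_mod_cast h4.le
    refine le_trans ?_ h5
    refine mul_le_mul_of_nonneg_right ?_ (by linarith)
    rcases Nat.eq_zero_or_pos k with h | h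
    · rw [h]
      norm_num
    · rw [Nat.cast_sub h]
      norm_num
  have hlogN0 : 0 ≤ Real.log N := Real.log_nonneg (by linarith)
  have hk1 : (k : ℝ) + 1 ≤ 2 + 3 / 2 * Real.log N := by
    by_contra hcon
    rw [not_le] at hcon
    have h4 : 3 / 2 * Real.log N < (k : ℝ) - 1 := by linarith
    nlinarith
  set r : ℝ := √(N : ℝ) with hr
  have hrr : r * r = N := Real.mul_self_sqrt hN0.le
  have hr1 : 1 ≤ r := by
    by_contra hcon
    rw [not_le] at hcon
    have : 0 ≤ r := Real.sqrt_nonneg _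
    nlinarith
  have hr0 : 0 < r := by linarith
  have hlogr : Real.log N = 2 * Real.log r := by
    rw [← hrr, Real.log_mul hr0.ne' hr0.ne']
    ring
  have hlogr2 : Real.log r ≤ r - 1 := Real.log_le_sub_one_of_pos hr0
  have hr40 : r ≤ 80 * s := by
    have h4 : (k : ℝ) + 1 ≤ 5 * r := by linarith
    have h5 : r * r ≤ (40 * ((s : ℝ) + 1)) * r := by
      rw [hrr]
      refine h3.trans ?_
      calc 8 * ((s : ℝ) + 1) * ((k : ℝ) + 1) ≤ 8 * ((s : ℝ) + 1) * (5 * r) :=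
            mul_le_mul_of_nonneg_left h4 (by positivity)
        _ = _ := by ring
    have h6 := le_of_mul_le_mul_right h5 hr0
    linarith
  have hlogr3 : Real.log r ≤ 5 / 4 * x := by
    have h4 : Real.log r ≤ Real.log (80 * s) := Real.log_le_log hr0 hr40
    rw [Real.log_mul (by norm_num) (by linarith)] at h4
    have h5 : Real.log 80 ≤ 80 - 1 := Real.log_le_sub_one_of_pos (by norm_num)
    linarith
  have hk4 : (k : ℝ) + 1 ≤ 4 * x := by linarith
  have hN33 : (N : ℝ) ≤ 33 * (s * x) := by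
    refine h3.trans ?_
    calc 8 * ((s : ℝ) + 1) * ((k : ℝ) + 1) ≤ 8 * ((s : ℝ) + 1) * (4 * x) :=
          mul_le_mul_of_nonneg_left hk4 (by positivity)
      _ ≤ 33 * (s * x) := by nlinarith
  have hNH : 3 / H * (N : ℝ) ^ 2 ≤ N * x := by
    have h4 : 3 / H * (N : ℝ) ^ 2 = (3 * N / H) * N := by ring
    have h5 : 3 * (N : ℝ) / H ≤ 198 := by
      rw [div_le_iff₀ hH0]
      linarith
    rw [h4, mul_comm (N : ℝ) x]
    exact mul_le_mul_of_nonneg_right (by linarith) hN0.le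
  rw [hEn]
  have h6 : (N : ℝ) * ((k : ℝ) + 1) ≤ N * (4 * x) := mul_le_mul_of_nonneg_left hk4 hN0.le
  linarith

/-- the last inequality -/
theorem num_last (s M : ℕ) (H E x y : ℝ) (hxs : Real.log s = x) (hs : 100 < (s : ℝ))
    (hsx : x ≤ s) (hy : 100 ≤ y) (hyx : y ^ 4 = x) (hlogx : Real.log x ≤ 4 * y)
    (hM1 : 240 ≤ M) (hM2 : (M : ℝ) ≤ x / 1000) (hH : s * x - 2 * s ≤ H)
    (hE : 12 * E ≤ 1 / 100) :
    ((M / 3 : ℕ) : ℝ) * (H + Real.log 2 + Real.log 5) +
        ((M * s + 1 : ℕ) : ℝ) / 2 * Real.log ((M * s + 1 : ℕ) : ℝ) +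
        ((M * s : ℕ) : ℝ) * (M * Real.log 67) <
      M * (1 - 1 / 20 - 12 * E) * H := by
  have hy4 : 1000000 * y ≤ x := by
    have h1 : (100 : ℝ) ^ 3 ≤ y ^ 3 := pow_le_pow_left₀ (by norm_num) hy 3
    have h2 : (100 : ℝ) ^ 3 * y ≤ y ^ 3 * y := mul_le_mul_of_nonneg_right h1 (by linarith)
    rw [← pow_succ, hyx] at h2
    norm_num at h2
    exact h2
  have hx : 100000000 ≤ x := by linarith
  have hM0 : (240 : ℝ) ≤ M := by exact_mod_cast hM1
  have hLx : Real.log x ≤ x / 1000 := by linarith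
  have hsx0 : 0 < (s : ℝ) * x := by positivity
  have hHs : 0 < H := by nlinarith
  have h2 : Real.log 2 ≤ 1 := by
    have := Real.log_le_sub_one_of_pos (show (0 : ℝ) < 2 by norm_num)
    linarith
  have h5 : Real.log 5 ≤ 4 := by
    have := Real.log_le_sub_one_of_pos (show (0 : ℝ) < 5 by norm_num)
    linarith
  have h20 : 0 ≤ Real.log 2 := Real.log_nonneg (by norm_num)
  have h50 : 0 ≤ Real.log 5 := Real.log_nonneg (by norm_num)
  have h67 : Real.log 67 ≤ 5 := by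
    rw [Real.log_le_iff_le_exp (by norm_num)]
    have h1 : (2.7182818283 : ℝ) < Real.exp 1 := Real.exp_one_gt_d9
    have h3 : Real.exp 5 = Real.exp 1 ^ 5 := by
      rw [← Real.exp_nat_mul]
      norm_num
    rw [h3]
    have h4 : (2.7 : ℝ) ^ 5 ≤ Real.exp 1 ^ 5 := by
      refine pow_le_pow_left₀ (by norm_num) (by linarith) 5
    refine le_trans ?_ h4
    norm_num
  -- first term
  have t1 : ((M / 3 : ℕ) : ℝ) * (H + Real.log 2 + Real.log 5) ≤ (M : ℝ) * ((H + 5) / 3) := by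
    have h6 : ((M / 3 : ℕ) : ℝ) ≤ (M : ℝ) / 3 := Nat.cast_div_le
    calc ((M / 3 : ℕ) : ℝ) * (H + Real.log 2 + Real.log 5) ≤ (M : ℝ) / 3 * (H + 5) :=
          mul_le_mul h6 (by linarith) (by linarith) (by positivity)
      _ = _ := by ring
  -- second term
  have hMs : ((M * s + 1 : ℕ) : ℝ) = M * s + 1 := by push_cast; ring
  have hMs0 : (0 : ℝ) < M * s := by positivity
  have hlogMs : Real.log ((M * s + 1 : ℕ) : ℝ) ≤ x + x / 1000 := by
    have h6 : ((M * s + 1 : ℕ) : ℝ) ≤ x * s := by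
      rw [hMs]
      nlinarith
    have h7 : Real.log ((M * s + 1 : ℕ) : ℝ) ≤ Real.log (x * s) :=
      Real.log_le_log (by rw [hMs]; linarith) h6
    rw [Real.log_mul (by linarith) (by linarith), hxs] at h7
    linarith
  have t2 : ((M * s + 1 : ℕ) : ℝ) / 2 * Real.log ((M * s + 1 : ℕ) : ℝ) ≤
      (M : ℝ) * (((s : ℝ) + 1) / 2 * (x + x / 1000)) := by
    have h6 : ((M * s + 1 : ℕ) : ℝ) / 2 ≤ (M : ℝ) * (((s : ℝ) + 1) / 2) := by
      rw [hMs]
      nlinarith
    have h7 : 0 ≤ Real.log ((M * s + 1 : ℕ) : ℝ) := Real.log_nonneg (by rw [hMs]; linarith)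
    calc ((M * s + 1 : ℕ) : ℝ) / 2 * Real.log ((M * s + 1 : ℕ) : ℝ)
        ≤ (M : ℝ) * (((s : ℝ) + 1) / 2) * (x + x / 1000) :=
          mul_le_mul h6 hlogMs h7 (by positivity)
      _ = _ := by ring
  -- third term
  have t3 : ((M * s : ℕ) : ℝ) * (M * Real.log 67) ≤ (M : ℝ) * (s * (x / 1000 * 5)) := by
    have h670 : 0 ≤ Real.log 67 := Real.log_nonneg (by norm_num)
    have h6 : (M : ℝ) * Real.log 67 ≤ x / 1000 * 5 :=
      mul_le_mul hM2 h67 h670 (by positivity)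
    push_cast
    calc (M : ℝ) * s * (M * Real.log 67) ≤ (M : ℝ) * s * (x / 1000 * 5) :=
          mul_le_mul_of_nonneg_left h6 (by positivity)
      _ = _ := by ring
  have t4 : (M : ℝ) * (94 / 100 * H) ≤ M * (1 - 1 / 20 - 12 * E) * H := by
    have h6 : (94 : ℝ) / 100 ≤ 1 - 1 / 20 - 12 * E := by linarith
    calc (M : ℝ) * (94 / 100 * H) = (94 / 100) * (M * H) := by ring
      _ ≤ (1 - 1 / 20 - 12 * E) * (M * H) := mul_le_mul_of_nonneg_right h6 (by positivity)
      _ = _ := by ring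
  have t5 : (H + 5) / 3 + ((s : ℝ) + 1) / 2 * (x + x / 1000) + s * (x / 1000 * 5) <
      94 / 100 * H := by
    have h6 : (100 : ℝ) * x ≤ s * x := by nlinarith
    have h7 : (100000000 : ℝ) * s ≤ s * x := by nlinarith
    nlinarith
  have t6 : (M : ℝ) * ((H + 5) / 3 + ((s : ℝ) + 1) / 2 * (x + x / 1000) +
      s * (x / 1000 * 5)) < M * (94 / 100 * H) :=
    mul_lt_mul_of_pos_left t5 (by linarith)
  rw [mul_add, mul_add] at t6
  linarith

end Pool.Agent.Ppr4
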