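import Pool.Agent.Ppr4.One
import Pool.Agent.Ppr2.AvA2
import Pool.Agent.Ppr2.AvB

/-!
# The order at `w'`, part A: one factor

`av_const`: a constant function is `∑_(j<M) coeff j κ • X^j` up to a function divisible by `X^M`
(`X_pow_dvd_iff`, `Submodule.sum_mem`, `av_gen` with `k = 0`, `av_dvd`).
`fac_av`: `II YR = 1` (`II_YR`), so `Sn n 1 (YR v) = YR v * ∑ bb k (YR v ^ 2 - 1) ^ k` is a
combination with real coefficients of the powers `YR v ^ l`, `l ≤ 2 n + 1` (`sub_pow`/`add_pow`,
or write it as `Polynomial.aeval (YR v) p` with `natDegree p ≤ 2 n + 1`,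
`Polynomial.aeval_eq_sum_range'`). `X^(A (2n+1)) YR^l` is a generator, as `A l ≤ A (2 n + 1)`
(`av_gen`), the constant summand `sg c0 * Sn n 1 (YR tt)` is treated by `av_const`.
-/

namespace Pool.Agent.Ppr4

open PowerSeries Pool.Agent.Ppr Pool.Agent.Ppr2

theorem av_const {A M : ℕ} (κ : PowerSeries ℝ) : (fun _ => κ) ∈ Av A M := by
  set S : PowerSeries ℝ := ∑ j ∈ Finset.range M, (coeff j κ) • (X ^ j : PowerSeries ℝ) with hS
  have h1 : (fun _ : ℕ → Bool => κ) = (∑ j ∈ Finset.range M,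
      (coeff j κ) • (fun z : ℕ → Bool => (X : PowerSeries ℝ) ^ j * YR z ^ 0))
      + fun _ => (κ - S) := by
    funext z
    simp only [Pi.add_apply, Finset.sum_apply, Pi.smul_apply, pow_zero, mul_one]
    rw [hS]
    ring
  rw [h1]
  refine Submodule.add_mem _ ?_ ?_
  · refine Submodule.sum_mem _ fun j _ => Submodule.smul_mem _ _ (av_gen (by simp))
  · refine av_dvd fun z => ?_
    rw [X_pow_dvd_iff]
    intro m hm
    rw [map_sub, hS, map_sum]
    have h2 : ∀ j ∈ Finset.range M, coeff m ((coeff j κ) • (X ^ j : PowerSeries ℝ))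
        = if m = j then coeff m κ else 0 := by
      intro j _
      rw [map_smul, coeff_X_pow, smul_eq_mul]
      by_cases h : m = j
      · simp [h]
      · simp [h]
    rw [Finset.sum_congr rfl h2, Finset.sum_ite_eq (Finset.range M) m]
    simp [hm]

theorem av_poly {A M e : ℕ} (p : Polynomial ℝ) (hp : p.natDegree ≤ e) :
    (fun v => X ^ (A * e) * Polynomial.aeval (YR v) p) ∈ Av A M := by
  have h1 : (fun v : ℕ → Bool => (X : PowerSeries ℝ) ^ (A * e) * Polynomial.aeval (YR v) p)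
      = ∑ l ∈ Finset.range (e + 1),
        (p.coeff l) • (fun v : ℕ → Bool => (X : PowerSeries ℝ) ^ (A * e) * YR v ^ l) := by
    funext v
    rw [Polynomial.aeval_eq_sum_range' (Nat.lt_succ_of_le hp), Finset.mul_sum]
    simp only [Finset.sum_apply, Pi.smul_apply]
    refine Finset.sum_congr rfl fun l _ => ?_
    rw [mul_smul_comm]
  rw [h1]
  refine Submodule.sum_mem _ fun l hl => Submodule.smul_mem _ _ (av_gen ?_)
  have : l ≤ e := Nat.lt_succ_iff.mp (Finset.mem_range.mp hl)
  exact Nat.mul_le_mul_left A this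

theorem Sn_poly (n : ℕ) : ∃ p : Polynomial ℝ, p.natDegree ≤ 2 * n + 1 ∧
    ∀ y : PowerSeries ℝ, Sn n 1 y = Polynomial.aeval y p := by
  refine ⟨Polynomial.X * ∑ k ∈ Finset.range (n + 1),
    Polynomial.C (bb k) * (Polynomial.X ^ 2 - 1) ^ k, ?_, ?_⟩
  · refine Polynomial.natDegree_mul_le.trans ?_
    have h1 : (∑ k ∈ Finset.range (n + 1),
        Polynomial.C (bb k) * (Polynomial.X ^ 2 - 1 : Polynomial ℝ) ^ k).natDegree ≤ 2 * n := by
      refine Polynomial.natDegree_sum_le_of_forall_le _ _ fun k hk => ?_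
      have hk' : k ≤ n := Nat.lt_succ_iff.mp (Finset.mem_range.mp hk)
      refine (Polynomial.natDegree_C_mul_le _ _).trans ?_
      refine Polynomial.natDegree_pow_le.trans ?_
      have h2 : (Polynomial.X ^ 2 - 1 : Polynomial ℝ).natDegree ≤ 2 := by
        refine (Polynomial.natDegree_sub_le _ _).trans ?_
        simp
      calc k * (Polynomial.X ^ 2 - 1 : Polynomial ℝ).natDegree ≤ n * 2 :=
            Nat.mul_le_mul hk' h2
        _ = 2 * n := by ring
    have h3 : (Polynomial.X : Polynomial ℝ).natDegree ≤ 1 := Polynomial.natDegree_X_le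
    omega
  · intro y
    unfold Sn
    simp only [map_mul, Polynomial.aeval_X, map_sum, map_pow, map_sub, map_one,
      Polynomial.aeval_C, one_pow, mul_one]

theorem fac_av (A M n : ℕ) (c0 g : Bool) :
    (fun v => X ^ (A * (2 * n + 1)) * fac YR c0 n g v) ∈ Av A M := by
  obtain ⟨p, hp, hpe⟩ := Sn_poly n
  have h1 : (fun v : ℕ → Bool => (X : PowerSeries ℝ) ^ (A * (2 * n + 1)) * fac YR c0 n g v)
      = (fun _ : ℕ → Bool => (X : PowerSeries ℝ) ^ (A * (2 * n + 1)) *
          ((sg c0 : PowerSeries ℝ) * Sn n 1 (YR tt)))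
        + ((sg g : ℝ) • fun v : ℕ → Bool =>
          (X : PowerSeries ℝ) ^ (A * (2 * n + 1)) * Polynomial.aeval (YR v) p) := by
    funext v
    simp only [Pi.add_apply, Pi.smul_apply]
    unfold fac
    rw [II_YR, ← hpe]
    have h2 : (sg g : ℝ) • (X ^ (A * (2 * n + 1)) * Sn n 1 (YR v) : PowerSeries ℝ)
        = (sg g : PowerSeries ℝ) * (X ^ (A * (2 * n + 1)) * Sn n 1 (YR v)) := by
      rw [Int.cast_smul_eq_zsmul, zsmul_eq_mul]
    rw [h2]
    ring
  rw [h1]
  exact Submodule.add_mem _ (av_const _) (Submodule.smul_mem _ _ (av_poly p hp))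

end Pool.Agent.Ppr4
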