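import Pool.Agent.Ppr4.OrdA

/-!
# The order at `w'`, part B: the steps

`F0_av`: `fac YR c0 0 e (app s z) = sg c0 * YR tt + sg e * YR (app s z)` (`Sn 0 I x = x`,
`bb 0 = 1`), `av_const`, `av_app` (`s ≠ []`), `av_mul`; `2 ^ (0 + 1) - 1 = 1`.
`itF_av`: induction on `i`. Let `H v = (X^(A e) * fac YR .. v) * (X^α * itF YR d i v)`,
`A = 2^(i+1) - 1`, `e = 2 nn i + 1`, `α = al d i`; `H ∈ Av A M` by `fac_av`, `av_mul`; `av_avg`
gives `(fun z => H (cons true z) + H (cons false z)) ∈ Av (2 A + 1) M`, which is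
`X^(al d (i+1)) * itF YR d (i+1) z`; `2 (2^(i+1) - 1) + 1 = 2^(i+2) - 1`.
`GG_ord0`: `av_avg` once more with `F = X^α itF YR d K`: class `2^(K+2) - 1`; take
`M = 2^(K+2) - 1` and `av_indep`: `X^M ∣ X^α * GG`; `X^M = X^(α + N) * ..` and `X^α` can be
cancelled (`mul_dvd_mul_iff_left`, `pow_ne_zero`, `X_ne_zero`).
-/

namespace Pool.Agent.Ppr4

open PowerSeries Pool.Agent.Ppr Pool.Agent.Ppr2

private theorem OrdB_fac {M : ℕ} (c0 e : Bool) {s : List Bool} (hs : s ≠ []) :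
    (fun z => fac YR c0 0 e (app s z)) ∈ Av 1 M := by
  have h1 : (fun z => fac YR c0 0 e (app s z)) =
      (fun _ => ((sg c0 : ℤ) : PowerSeries ℝ) * YR tt) + sg e • (fun z => YR (app s z)) := by
    funext z
    rw [Pi.add_apply, Pi.smul_apply, zsmul_eq_mul]
    simp [fac, Sn, bb]
  rw [h1]
  exact Submodule.add_mem _ (av_const _) (zsmul_mem (av_app hs) _)

theorem F0_av (M : ℕ) (d : Dat) (h1 : d.s1 ≠ []) (h2 : d.s2 ≠ []) : F0 YR d ∈ Av 1 M := by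
  exact av_mul (OrdB_fac d.c0 d.e1 h1) (OrdB_fac d.c0 d.e2 h2)

theorem itF_av (M : ℕ) (d : Dat) (h1 : d.s1 ≠ []) (h2 : d.s2 ≠ []) (i : ℕ) :
    (fun z => X ^ al d i * itF YR d i z) ∈ Av (2 ^ (i + 1) - 1) M := by
  induction i with
  | zero =>
    have h3 : (fun z => X ^ al d 0 * itF YR d 0 z) = F0 YR d := by
      funext z
      simp [al, itF]
    have h4 : 2 ^ (0 + 1) - 1 = 1 := by norm_num
    rw [h3, h4]
    exact F0_av M d h1 h2
  | succ i ih =>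
    have h3 := av_avg (av_mul (fac_av (2 ^ (i + 1) - 1) M (d.nn i) d.c0 (d.g i)) ih)
    have h4 : 2 * (2 ^ (i + 1) - 1) + 1 = 2 ^ (i + 1 + 1) - 1 := by
      have h5 : 0 < 2 ^ (i + 1) := Nat.two_pow_pos _
      have h6 : 2 ^ (i + 1 + 1) = 2 * 2 ^ (i + 1) := by rw [pow_succ _ (i + 1), mul_comm]
      omega
    rw [h4] at h3
    refine (congrArg (· ∈ Av (2 ^ (i + 1 + 1) - 1) M) ?_).mp h3
    funext z
    have h5 : al d (i + 1) = al d i + (2 ^ (i + 1) - 1) * (2 * d.nn i + 1) := by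
      simp only [al]
      rw [Finset.sum_range_succ]
    rw [h5, pow_add]
    simp only [itF, stp, Pi.mul_apply]
    ring

theorem GG_ord0 (d : Dat) (h1 : d.s1 ≠ []) (h2 : d.s2 ≠ []) (K N : ℕ)
    (hN : al d K + N ≤ 2 ^ (K + 2) - 1) (u u' : ℕ → Bool) :
    X ^ N ∣ GG YR d K u u' := by
  have h3 := av_avg (itF_av (2 ^ (K + 2) - 1) d h1 h2 K)
  have h4 : 2 ^ (K + 2) - 1 ≤ 2 * (2 ^ (K + 1) - 1) + 1 := by
    have h5 : 0 < 2 ^ (K + 1) := Nat.two_pow_pos _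
    have h6 : 2 ^ (K + 2) = 2 * 2 ^ (K + 1) := by rw [pow_succ _ (K + 1), mul_comm]
    omega
  have h5 := av_indep h3 h4 u u'
  have h6 : (X : PowerSeries ℝ) ^ al d K * X ^ N ∣ X ^ al d K * GG YR d K u u' := by
    rw [← pow_add]
    refine (pow_dvd_pow X hN).trans (h5.trans (dvd_of_eq ?_))
    simp only [GG]
    ring
  exact (mul_dvd_mul_iff_left (pow_ne_zero _ X_ne_zero)).1 h6

end Pool.Agent.Ppr4
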