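import Pool.Agent.Ppr4.Gen
import Pool.Agent.Ppr4.Hom
import Pool.Agent.Ppr4.NrmG
import Pool.Agent.Ppr4.OrdB
import Pool.Agent.Ppr4.Cnt
import Pool.Agent.Ppr4.CntE
import Pool.Agent.Ppr4.Dich
import Pool.Agent.Ppr4.DichB
import Pool.Agent.Ppr2.GapSepA

/-!
# The separator for a block code

The template is `gap_sep` in `Ppr2/GapSep.lean`. `exists_pt` gives `pt`; `not_same`, `exists_dat`
with `c0 = img ψ tt 0` and `nn t = min ((K - t) / 4) ns` give `d, u, u'`; `G = GG V d K u u'`,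
`V v = MvPolynomial.X (pt v)`, `g = κ = dg d K` (`dg_le`). Homogeneous: `GG_hom`. At `w'`:
`GG_map` for `eps σ w'`, `GG_congr (X ^ M)` with `V' = YR` (`eps_pt'`, `X ^ M ∣ X ^ M2`) and
`GG_ord0` with `N = 2 ^ K`, `al_le` (`X ^ M ∣ X ^ 2 ^ K`). Norm: `GG_map`, `GG_nrm`
(`eps σ w (X i) = YR (ow σ w i)`, `nrmr_le_nrm`, `nrm_YR_le`). At `w0`: `GG_map`, `GG_congr` with
`V' = V0 ψ` (`eps_pt0`), so by `nrmr_congr` and `GG_near`, `er_le` (`ρ = 5 r`):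
`nrmr r M (eps σ w0 G - C Δ) ≤ 16 * 2 ^ K / 40 ≤ |Δ| / 10`, `Δ = 2 ^ K * del ψ d K u u'`,
`|Δ| ≥ 4 * 2 ^ K`. `constr_ne_zero`, `exists_inv`, `nrmr_inv_le`: the norm of the inverse is
`≤ 1 / (|Δ| - |Δ| / 10) ≤ 1 ≤ 4 ^ κ`.
-/

namespace Pool.Agent.Ppr4

open PowerSeries Pool.Agent.Ppr Pool.Agent.Ppr2

variable {ι : Type} {σ : ι → ι} {w0 w' : ι → Bool} {m : ℕ} {ψ : (Fin m → Bool) → Bool}

theorem sep_code {r : ℝ} (hr : 0 < r) (hr2 : 5 * r ≤ 1 / 10 ^ 8) {M M2 : ℕ} (hM : 0 < M)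
    (hM2 : M + m ≤ M2) (hfull : full σ w' M2)
    (hψ : ∀ i, w0 i = xor (w' i) (ψ fun l : Fin m => w' (σ^[l.1 + 1] i)))
    (hnc : ∃ x y, ψ x ≠ ψ y) (hpm : (ψ fun _ => true) = ψ fun _ => false) (K ns : ℕ)
    (hK : M ≤ 2 ^ K) (hns : K ≤ 2 ^ ns) :
    ∃ g κ G, κ ≤ 2 + K * (2 * ns + 1) ∧ IsSepr r σ M w0 w' g κ G := by
  obtain ⟨pt, hpt⟩ := exists_pt hfull
  obtain ⟨d, u, u', hc0, hnn, h1, h2, hdel⟩ := exists_dat K (not_same hnc hpm K) (img ψ tt 0)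
    (fun t => min ((K - t) / 4) ns)
  have hn : ∀ t, d.nn t = min ((K - t) / 4) ns := fun t => by rw [hnn]
  have hr5 : (0 : ℝ) ≤ 5 * r := by positivity
  have her := er_le hr5 hr2 d K ns hns hn
  have hr64 : r ≤ 1 / 64 := by
    have : (1 : ℝ) / 10 ^ 8 ≤ 1 / 64 := by norm_num
    linarith
  have hr100 : 5 * r ≤ 1 / 100 := hr2.trans (by norm_num)
  obtain ⟨G, hG⟩ : ∃ G, G = GG (fun v => (MvPolynomial.X (pt v) : MvPolynomial ι ℝ)) d K u u' :=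
    ⟨_, rfl⟩
  obtain ⟨Δ, hΔ⟩ : ∃ Δ, Δ = 2 ^ K * del ψ d K u u' := ⟨_, rfl⟩
  have h2K : (1 : ℝ) ≤ 2 ^ K := one_le_pow₀ (by norm_num)
  have hΔ4 : 4 * 2 ^ K ≤ |Δ| := by
    rw [hΔ, abs_mul, abs_of_pos (show (0 : ℝ) < 2 ^ K by linarith)]
    nlinarith
  have hΔ0 : 0 < |Δ| := by linarith
  have hX : ∀ (w : ι → Bool) (i : ι), eps σ w (MvPolynomial.X i) = YR (ow σ w i) := fun w i => by
    unfold eps
    exact MvPolynomial.aeval_X _ _
  have hmap : ∀ w : ι → Bool, eps σ w G = GG (fun v => YR (ow σ w (pt v))) d K u u' := by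
    intro w
    rw [hG, GG_map]
    congr 1
    funext v
    exact hX w (pt v)
  have hhom : G.IsHomogeneous (dg d K) := by
    rw [hG]
    exact GG_hom pt d K u u'
  have hvan : X ^ M ∣ eps σ w' G := by
    have e1 : X ^ M ∣ eps σ w' G - GG YR d K u u' := by
      rw [hmap]
      refine GG_congr (X ^ M) (fun v => ?_) d K u u'
      have e2 := eps_pt' hpt v
      rw [hX] at e2
      exact (pow_dvd_pow X (by omega)).trans e2
    have e3 : X ^ M ∣ GG YR d K u u' :=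
      (pow_dvd_pow X hK).trans (GG_ord0 d h1 h2 K (2 ^ K) (al_le d K ns hn) u u')
    have e4 := dvd_add e1 e3
    rwa [sub_add_cancel] at e4
  have hnrm : ∀ w : ι → Bool, nrmr r M (eps σ w G) ≤ 5 ^ dg d K := by
    intro w
    rw [hmap]
    exact GG_nrm hr.le M _ (fun v => (nrmr_le_nrm hr.le hr64 M _).trans (nrm_YR_le M _)) d K u u'
  have hunit : nrmr r M (eps σ w0 G - C Δ) ≤ |Δ| / 10 := by
    have e1 : X ^ M ∣ (eps σ w0 G - C Δ) - (GG (V0 ψ) d K u u' - C Δ) := by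
      rw [sub_sub_sub_cancel_right, hmap]
      refine GG_congr (X ^ M) (fun v => ?_) d K u u'
      have e2 := eps_pt0 hM2 hpt hψ v
      rw [hX] at e2
      exact e2
    rw [nrmr_congr e1, hΔ]
    refine (GG_near hpm hr.le hr100 M d hc0 K (her.trans (by norm_num)) u u').trans ?_
    rw [← hΔ]
    have e3 : 16 * 2 ^ K * er (5 * r) d K ≤ 16 * 2 ^ K * (1 / 40) :=
      mul_le_mul_of_nonneg_left her (by linarith)
    linarith
  have hc : constantCoeff (eps σ w0 G) ≠ 0 :=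
    constr_ne_zero hr.le hM hunit (by linarith)
  obtain ⟨inv, hinv⟩ := exists_inv hc
  refine ⟨dg d K, dg d K, G, dg_le d K ns hn, hhom, le_rfl, hvan, ⟨inv, hinv, ?_⟩, hnrm⟩
  refine (nrmr_inv_le hr.le hunit (by linarith) hinv).trans ?_
  rw [div_le_iff₀ (by linarith)]
  have h5 : (1 : ℝ) ≤ 4 ^ dg d K := one_le_pow₀ (by norm_num)
  nlinarith

end Pool.Agent.Ppr4
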