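import Pool.Agent.Ppr4.One
import Pool.Agent.Ppr4.BinC

/-!
# The values at `w0`, part A: one factor

`II (V0 ψ) = 1` (`II_V0`), `V0 ψ tt = YR (fun k => img ψ tt k)` and `V0 ψ v` are series of words,
their first letters are `c0 = img ψ tt 0` and `img ψ v 0`. `Sn_near` twice:
`fac - C (1 + sg g * sg (img ψ v 0)) = sg c0 (Sn n 1 (V0 ψ tt) - C (sg c0)) +
sg g (Sn n 1 (V0 ψ v) - C (sg (img ψ v 0)))`, because `sg c0 * sg c0 = 1`; the signs do not change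
the norm (`sg b = ± 1`, `nrmr_neg`, or `nrmr_C_mul`).
-/

namespace Pool.Agent.Ppr4

open PowerSeries Pool.Agent.Ppr Pool.Agent.Ppr2

variable {m : ℕ} {ψ : (Fin m → Bool) → Bool}

private theorem valA_sg_sq (b : Bool) : ((sg b : ℤ) : ℝ) * ((sg b : ℤ) : ℝ) = 1 := by
  cases b <;> simp [sg]

private theorem valA_abs_sg (b : Bool) : |((sg b : ℤ) : ℝ)| = 1 := by
  cases b <;> simp [sg]

private theorem valA_cast (b : Bool) :
    ((sg b : ℤ) : PowerSeries ℝ) = C ((sg b : ℤ) : ℝ) :=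
  (map_intCast (C : ℝ →+* PowerSeries ℝ) _).symm

theorem fac_near (hpm : (ψ fun _ => true) = ψ fun _ => false) {r : ℝ} (hr : 0 ≤ r)
    (hr2 : 5 * r ≤ 1 / 100) (n M : ℕ) (g : Bool) (v : ℕ → Bool) :
    nrmr r M (fac (V0 ψ) (img ψ tt 0) n g v -
      C (1 + (sg g : ℝ) * (sg (img ψ v 0) : ℝ))) ≤ 8 * (5 * r) ^ (n + 1) := by
  have h1 : nrmr r M (Sn n 1 (V0 ψ tt) - C (sg (img ψ tt 0) : ℝ)) ≤ 4 * (5 * r) ^ (n + 1) :=
    Sn_near hr hr2 n M (fun k => img ψ tt k)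
  have h2 : nrmr r M (Sn n 1 (V0 ψ v) - C (sg (img ψ v 0) : ℝ)) ≤ 4 * (5 * r) ^ (n + 1) :=
    Sn_near hr hr2 n M (fun k => img ψ v k)
  have h3 : fac (V0 ψ) (img ψ tt 0) n g v - C (1 + (sg g : ℝ) * (sg (img ψ v 0) : ℝ)) =
      C (sg (img ψ tt 0) : ℝ) * (Sn n 1 (V0 ψ tt) - C (sg (img ψ tt 0) : ℝ)) +
        C (sg g : ℝ) * (Sn n 1 (V0 ψ v) - C (sg (img ψ v 0) : ℝ)) := by
    unfold fac
    rw [II_V0 hpm, valA_cast, valA_cast, map_add, map_mul, map_one, mul_sub, mul_sub,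
      ← map_mul C (sg (img ψ tt 0) : ℝ), valA_sg_sq, map_one]
    ring
  rw [h3]
  refine (nrmr_add_le hr M _ _).trans ?_
  rw [nrmr_C_mul, nrmr_C_mul, valA_abs_sg, valA_abs_sg, one_mul, one_mul]
  linarith

end Pool.Agent.Ppr4
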